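import Mathlib

set_option autoImplicit false

namespace Pool.Agent.H21.Lens

/-- Sum of two coefficient lists (missing entries are zero). -/
def addL : List ℤ → List ℤ → List ℤ
  | [], b => b
  | a :: as, [] => a :: as
  | a :: as, b :: bs => (a + b) :: addL as bs

/-- Cyclic shift of a list. -/
def rot (m : ℕ) (l : List ℤ) : List ℤ := l.drop m ++ l.take m

/-- Negation of a coefficient list. -/
def negL (l : List ℤ) : List ℤ := l.map (fun t => -t)

/-- Sum of two lists of rows. -/
def addM : List (List ℤ) → List (List ℤ) → List (List ℤ)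
  | [], b => b
  | a :: as, [] => a :: as
  | a :: as, b :: bs => addL a b :: addM as bs

/-- Multiplication by `1 - (x^a + x^(-a)) z + z^2` on tables of coefficients. -/
def mulP (a : ℕ) (L : List (List ℤ)) : List (List ℤ) :=
  addM L (addM ([] :: L.map (fun r => negL (addL (rot a r) (rot (56 - a) r)))) ([] :: [] :: L))

/-- The row of `x^25 + x^31 - x^17 - x^39`. -/
def kappaRow : List ℤ :=
  (List.range 56).map (fun i => if i = 25 ∨ i = 31 then 1 else if i = 17 ∨ i = 39 then -1 else 0)

/-- The final table. -/
def tableS : List (List ℤ) :=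
  [3, 5, 5, 9, 11, 13, 15, 19, 19, 23, 27, 27].foldl (fun L a => mulP a L) [kappaRow]

/-- Sum of the entries of a row at the positions `i` (counted from `j`) with `gcd i 56 = d`. -/
def orbSum (d : ℕ) : List ℤ → ℕ → ℤ
  | [], _ => 0
  | a :: as, j => (if Nat.gcd j 56 = d then a else 0) + orbSum d as (j + 1)

set_option maxRecDepth 100000 in
theorem tableS_check : ∀ r ∈ tableS, ∀ d ∈ [1, 2, 4, 7, 8, 14, 28, 56], orbSum d r 0 = 0 := by
  decide +kernel

end Pool.Agent.H21.Lens
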