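import Mathlib
import Pool.Agent.H21.Lens.Comp

set_option autoImplicit false

namespace Pool.Agent.H21.Lens

open Finset

section generic
variable {A : Type*} [CommRing A]

/-- value of a coefficient list at `x`. -/
def V (x : A) : List ℤ → A
  | [] => 0
  | a :: as => (a : A) + x * V x as

/-- value of a table at `x, z`. -/
def W (x z : A) : List (List ℤ) → A
  | [] => 0
  | r :: rs => V x r + z * W x z rs

theorem V_addL (x : A) : ∀ a b : List ℤ, V x (addL a b) = V x a + V x b
  | [], b => by simp [addL, V]
  | a :: as, [] => by simp [addL, V]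
  | a :: as, b :: bs => by
    simp only [addL, V, V_addL x as bs, Int.cast_add]; ring

theorem V_negL (x : A) : ∀ a : List ℤ, V x (negL a) = - V x a
  | [] => by simp [negL, V]
  | a :: as => by
    have := V_negL x as
    simp only [negL, List.map_cons, V, Int.cast_neg] at this ⊢
    rw [this]; ring

theorem V_append (x : A) : ∀ a b : List ℤ, V x (a ++ b) = V x a + x ^ a.length * V x b
  | [], b => by simp [V]
  | a :: as, b => by
    simp only [List.cons_append, V, V_append x as b, List.length_cons]; ring

theorem V_rot (x y : A) (m n : ℕ) (hm : m ≤ n) (hx : x ^ n = 1) (hy : x ^ m * y = 1)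
    (l : List ℤ) (hl : l.length = n ∨ l = []) : V x (rot m l) = y * V x l := by
  rcases hl with hl | hl
  · have h1 : V x l = V x (l.take m) + x ^ m * V x (l.drop m) := by
      conv_lhs => rw [← List.take_append_drop m l]
      rw [V_append, List.length_take, hl, min_eq_left hm]
    have h2 : V x (rot m l) = V x (l.drop m) + x ^ (n - m) * V x (l.take m) := by
      rw [rot, V_append, List.length_drop, hl]
    have h3 : x ^ (n - m) = y := by
      have : x ^ (n - m) * x ^ m = 1 := by rw [← pow_add, Nat.sub_add_cancel hm, hx]
      calc x ^ (n - m) = x ^ (n - m) * (x ^ m * y) := by rw [hy, mul_one]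
        _ = (x ^ (n - m) * x ^ m) * y := by ring
        _ = y := by rw [this, one_mul]
    rw [h2, h1, h3]
    linear_combination (- V x (l.drop m)) * hy
  · subst hl; simp [rot, V]

theorem W_addM (x z : A) : ∀ a b : List (List ℤ), W x z (addM a b) = W x z a + W x z b
  | [], b => by simp [addM, W]
  | a :: as, [] => by simp [addM, W]
  | a :: as, b :: bs => by
    simp only [addM, W, W_addM x z as bs, V_addL]; ring

/-- all rows have length `56` or are empty -/
def Good (L : List (List ℤ)) : Prop := ∀ r ∈ L, r.length = 56 ∨ r = []

theorem rot_length (m : ℕ) (l : List ℤ) : (rot m l).length = l.length := by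
  simp [rot]; omega

theorem addL_length : ∀ a b : List ℤ, (a.length = 56 ∨ a = []) → (b.length = 56 ∨ b = []) →
    ((addL a b).length = 56 ∨ addL a b = []) := by
  have key : ∀ a b : List ℤ, (addL a b).length = max a.length b.length := by
    intro a
    induction a with
    | nil => intro b; simp [addL]
    | cons a as ih =>
      intro b
      cases b with
      | nil => simp [addL]
      | cons b bs => simp [addL, ih bs]
  intro a b ha hb
  have hk := key a b
  rcases ha with ha | ha <;> rcases hb with hb | hb
  · left; rw [hk, ha, hb]; rfl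
  · left; rw [hk, ha, hb]; rfl
  · left; rw [hk, ha, hb]; rfl
  · right; subst ha; subst hb; rfl

theorem good_addM : ∀ a b : List (List ℤ), Good a → Good b → Good (addM a b)
  | [], b, _, hb => by simpa [addM] using hb
  | a :: as, [], ha, _ => by simpa [addM] using ha
  | a :: as, b :: bs, ha, hb => by
    intro r hr
    simp only [addM, List.mem_cons] at hr
    rcases hr with rfl | hr
    · exact addL_length _ _ (ha _ (by simp)) (hb _ (by simp))
    · exact good_addM as bs (fun r hr => ha r (by simp [hr])) (fun r hr => hb r (by simp [hr])) r hr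

theorem good_mulP (a : ℕ) (L : List (List ℤ)) (hL : Good L) : Good (mulP a L) := by
  unfold mulP
  apply good_addM _ _ hL
  apply good_addM
  · intro r hr
    simp only [List.mem_cons, List.mem_map] at hr
    rcases hr with rfl | ⟨s, hs, rfl⟩
    · right; rfl
    · have h := hL s hs
      have h1 : ∀ m, (rot m s).length = 56 ∨ rot m s = [] := by
        intro m
        rcases h with h | h
        · left; rw [rot_length, h]
        · right; subst h; simp [rot]
      have h2 := addL_length _ _ (h1 a) (h1 (56 - a))
      rcases h2 with h2 | h2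
      · left; simp [negL, h2]
      · right; simp [negL, h2]
  · intro r hr
    simp only [List.mem_cons] at hr
    rcases hr with rfl | rfl | hr
    · right; rfl
    · right; rfl
    · exact hL r hr

theorem W_map_y (x z : A) (a : ℕ) (ha : a ≤ 56) (xa xb : A) (hx : x ^ 56 = 1)
    (h1 : x ^ a * xb = 1) (h2 : x ^ (56 - a) * xa = 1) :
    ∀ L : List (List ℤ), Good L →
      W x z (L.map (fun r => negL (addL (rot a r) (rot (56 - a) r)))) = - ((xa + xb) * W x z L)
  | [], _ => by simp [W]
  | r :: rs, hL => by
    have ih := W_map_y x z a ha xa xb hx h1 h2 rs (fun r hr => hL r (by simp [hr]))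
    simp only [List.map_cons, W]
    rw [ih, V_negL, V_addL, V_rot x xb a 56 ha hx h1 r (hL r (by simp)),
      V_rot x xa (56 - a) 56 (by omega) hx h2 r (hL r (by simp))]
    ring

theorem W_mulP (x z : A) (a : ℕ) (ha : a ≤ 56) (xa xb : A) (hx : x ^ 56 = 1)
    (h1 : x ^ a * xb = 1) (h2 : x ^ (56 - a) * xa = 1) (L : List (List ℤ)) (hL : Good L) :
    W x z (mulP a L) = (1 - (xa + xb) * z + z ^ 2) * W x z L := by
  unfold mulP
  rw [W_addM, W_addM]
  simp only [W, V]
  rw [W_map_y x z a ha xa xb hx h1 h2 L hL]
  ring

end generic

end Pool.Agent.H21.Lens
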