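import Mathlib
import Pool.Agent.H21.Lens.Comp
import Pool.Agent.H21.Lens.Alg

set_option autoImplicit false

namespace Pool.Agent.H21.Lens

open Finset PowerSeries

/-- the integral group ring of the cyclic group of order `q` -/
abbrev GR (q : ℕ) := AddMonoidAlgebra ℤ (ZMod q)

/-- the group element `c` -/
noncomputable def gx {q : ℕ} (c : ZMod q) : GR q := AddMonoidAlgebra.single c 1

theorem gx_mul {q : ℕ} (a b : ZMod q) : gx a * gx b = gx (a + b) := by
  simp [gx, AddMonoidAlgebra.single_mul_single]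

theorem gx_zero {q : ℕ} : gx (0 : ZMod q) = 1 := rfl

theorem gx_pow {q : ℕ} (a : ZMod q) (n : ℕ) : gx a ^ n = gx ((n : ZMod q) * a) := by
  induction n with
  | zero => simp [gx_zero]
  | succ n ih => rw [pow_succ, ih, gx_mul]; congr 1; push_cast; ring

/-- geometric series `1/(1 - x^a z)` -/
noncomputable def geo {q : ℕ} (a : ZMod q) : PowerSeries (GR q) := PowerSeries.mk (fun m => gx (m * a))

theorem geo_mul {q : ℕ} (a : ZMod q) : (1 - C (gx a) * X) * geo a = 1 := by
  ext1 n
  rw [sub_mul, one_mul, mul_assoc, map_sub]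
  cases n with
  | zero => simp [geo, gx_zero]
  | succ n =>
    rw [coeff_C_mul, coeff_succ_X_mul]
    simp only [geo, coeff_mk, gx_mul, coeff_one]
    rw [if_neg (by omega)]
    push_cast
    rw [show a + (n : ZMod q) * a = (n + 1) * a by ring, sub_self]

/-- the automorphism `x ↦ x^u` of the group ring -/
noncomputable def sig {q : ℕ} (u : ZMod q) : GR q →+* GR q :=
  AddMonoidAlgebra.mapDomainRingHom ℤ (AddMonoidHom.mulLeft u)

theorem sig_gx {q : ℕ} (u c : ZMod q) : sig u (gx c) = gx (u * c) := by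
  simp [sig, gx]

theorem sig_coeff {q : ℕ} (u : ZMod q) (hu : IsUnit u) (f : GR q) (c : ZMod q) :
    (sig u f).coeff (u * c) = f.coeff c := by
  have : Function.Injective (fun c : ZMod q => u * c) := fun a b h => hu.mul_left_cancel h
  simp only [sig]
  exact Finsupp.mapDomain_apply this f.coeff c

theorem map_sig_geo {q : ℕ} (u a : ZMod q) : PowerSeries.map (sig u) (geo a) = geo (u * a) := by
  ext1 n
  simp only [geo, coeff_map, coeff_mk, sig_gx]
  congr 1; ring


/-- the set of units modulo `56`, written out -/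
def U56 : Finset (ZMod 56) :=
  {1, 3, 5, 9, 11, 13, 15, 17, 19, 23, 25, 27, 29, 31, 33, 37, 39, 41, 43, 45, 47, 51, 53, 55}

theorem U56_inv : ∀ u ∈ U56, ∃ v ∈ U56, u * v = 1 := by decide +kernel

theorem U56_isUnit {u : ZMod 56} (hu : u ∈ U56) : IsUnit u := by
  obtain ⟨v, _, hv⟩ := U56_inv u hu
  exact IsUnit.of_mul_eq_one v hv

theorem U56_image : ∀ u ∈ U56, U56.image (fun a => u * a) = U56 := by decide +kernel

/-- inverse of `∏ (1 - x^a z)` over the units -/
noncomputable def HH : PowerSeries (GR 56) := ∏ a ∈ U56, geo a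

theorem map_sig_HH {u : ZMod 56} (hu : u ∈ U56) : PowerSeries.map (sig u) HH = HH := by
  unfold HH
  rw [map_prod]
  simp only [map_sig_geo]
  have hinj : Set.InjOn (fun a : ZMod 56 => u * a) (U56 : Set (ZMod 56)) :=
    fun a _ b _ h => (U56_isUnit hu).mul_left_cancel h
  rw [← Finset.prod_image (s := U56) (g := fun a => u * a) (f := fun a => geo a) hinj,
    U56_image u hu]

theorem coeff_HH_sq_inv {u : ZMod 56} (hu : u ∈ U56) (k : ℕ) (c : ZMod 56) :
    (PowerSeries.coeff k (HH ^ 2)).coeff (u * c) = (PowerSeries.coeff k (HH ^ 2)).coeff c := by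
  have h : PowerSeries.map (sig u) (HH ^ 2) = HH ^ 2 := by rw [map_pow, map_sig_HH hu]
  conv_lhs => rw [← h]
  rw [coeff_map, sig_coeff u (U56_isUnit hu)]

theorem orbit_rep : ∀ c : ZMod 56, ∃ u ∈ U56, -c = u * ((Nat.gcd c.val 56 : ℕ) : ZMod 56) := by
  decide +kernel

theorem coeff_neg_nat (h : GR 56) (hh : ∀ u ∈ U56, ∀ c, h.coeff (u * c) = h.coeff c) (i : ℕ) :
    h.coeff (-(i : ZMod 56)) = h.coeff ((Nat.gcd i 56 : ℕ) : ZMod 56) := by
  obtain ⟨u, hu, hc⟩ := orbit_rep (i : ZMod 56)
  rw [hc, hh u hu, ZMod.val_natCast]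
  congr 2
  exact Nat.ModEq.gcd_eq (Nat.mod_modEq i 56)

/-- pairing of a list with a function -/
def pr (φ : ℕ → ℤ) : List ℤ → ℕ → ℤ
  | [], _ => 0
  | a :: as, j => a * φ j + pr φ as (j + 1)

theorem coeff_V_mul (h : GR 56) : ∀ (r : List ℤ) (j : ℕ),
    (V (gx 1) r * (gx 1 ^ j * h)).coeff 0 = pr (fun i => h.coeff (-(i : ZMod 56))) r j
  | [], j => by simp [V, pr]
  | a :: as, j => by
    have ih := coeff_V_mul h as (j + 1)
    simp only [V, pr]
    rw [← ih]
    have e : ((a : GR 56) + gx 1 * V (gx 1) as) * (gx 1 ^ j * h) =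
        a • (gx 1 ^ j * h) + V (gx 1) as * (gx 1 ^ (j + 1) * h) := by
      rw [zsmul_eq_mul]; ring
    rw [e, gx_pow]
    simp only [AddMonoidAlgebra.coeff_add, Finsupp.add_apply, AddMonoidAlgebra.coeff_smul, Finsupp.smul_apply]
    congr 1
    simp only [smul_eq_mul, mul_one]
    rw [gx, AddMonoidAlgebra.coeff_single_mul_apply]
    simp

theorem pr_eq (φ ψ : ℕ → ℤ) (hφ : ∀ i, φ i = ψ (Nat.gcd i 56)) : ∀ (r : List ℤ) (j : ℕ),
    pr φ r j = ([1, 2, 4, 7, 8, 14, 28, 56].map (fun d => ψ d * orbSum d r j)).sum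
  | [], j => by simp [pr, orbSum]
  | a :: as, j => by
    have ih := pr_eq φ ψ hφ as (j + 1)
    simp only [pr, orbSum]
    rw [ih, hφ]
    have hg : Nat.gcd j 56 ∈ Nat.divisors 56 := by simp [Nat.gcd_dvd_right]
    have hd : Nat.divisors 56 = {1, 2, 4, 7, 8, 14, 28, 56} := by decide +kernel
    rw [hd] at hg
    simp only [Finset.mem_insert, Finset.mem_singleton] at hg
    rcases hg with h | h | h | h | h | h | h | h <;> rw [h] <;> simp <;> ring

theorem coeff_W_mul : ∀ (L : List (List ℤ)) (H : PowerSeries (GR 56)),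
    (∀ k, ∀ u ∈ U56, ∀ c, (PowerSeries.coeff k H).coeff (u * c) = (PowerSeries.coeff k H).coeff c) →
    (∀ r ∈ L, ∀ d ∈ [1, 2, 4, 7, 8, 14, 28, 56], orbSum d r 0 = 0) →
    ∀ k, (PowerSeries.coeff k (W (C (gx 1)) X L * H)).coeff 0 = 0
  | [], H, _, _ => by simp [W]
  | r :: rs, H, hH, hL => by
    intro k
    have hV : V (C (gx 1)) r = C (V (gx (1 : ZMod 56)) r) := by
      clear hL
      induction r with
      | nil => simp [V]
      | cons a as ih => simp [V, ih]
    simp only [W]
    rw [hV, add_mul, map_add, coeff_C_mul, AddMonoidAlgebra.coeff_add, Finsupp.add_apply]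
    have h1 : (V (gx (1 : ZMod 56)) r * (coeff k) H).coeff 0 = 0 := by
      have h2 := coeff_V_mul ((coeff k) H) r 0
      rw [pow_zero, one_mul] at h2
      rw [h2, pr_eq _ (fun i => ((coeff k) H).coeff ((i : ℕ) : ZMod 56))
        (fun i => coeff_neg_nat _ (hH k) i)]
      have h3 := hL r (by simp)
      simp only [List.mem_cons, List.not_mem_nil, or_false, forall_eq_or_imp, forall_eq] at h3
      simp [h3]
    rw [h1, zero_add, mul_assoc]
    cases k with
    | zero => simp
    | succ k =>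
      rw [coeff_succ_X_mul]
      exact coeff_W_mul rs H hH (fun r hr => hL r (by simp [hr])) k

end Pool.Agent.H21.Lens
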