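import Mathlib

/-!
# Lens spaces: the quotient with its Riemannian distance, and the Laplace eigenspaces
-/

set_option autoImplicit false

namespace Pool.Agent.H21.LensDefs

open InnerProductSpace Laplacian
open scoped ContDiff

/-- `ℂ^n` with its Euclidean structure (a real Euclidean space of dimension `2n`). -/
abbrev Cn (n : ℕ) := EuclideanSpace ℂ (Fin n)

/-- The unit sphere `S^{2n-1}` of `ℂ^n`. -/
abbrev Sph (n : ℕ) := Metric.sphere (0 : Cn n) 1

/-- The `m`-th power of the generator `g` of the group defining `L(q;s)`: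
`(z_1, …, z_n) ↦ (ξ^{m s_1} z_1, …, ξ^{m s_n} z_n)` with `ξ = exp(2πi/q)`. -/
noncomputable def rot {n : ℕ} (q : ℕ) (s : Fin n → ℤ) (m : ℤ) (z : Cn n) : Cn n :=
  WithLp.toLp 2 fun j => Complex.exp (2 * Real.pi * Complex.I * ((m * s j : ℤ) : ℂ) / q) * z j

theorem rot_zero {n : ℕ} (q : ℕ) (s : Fin n → ℤ) (z : Cn n) : rot q s 0 z = z := by
  ext j; simp [rot]

theorem rot_rot {n : ℕ} (q : ℕ) (s : Fin n → ℤ) (m m' : ℤ) (z : Cn n) :
    rot q s m (rot q s m' z) = rot q s (m + m') z := by
  ext j
  simp only [rot]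
  rw [← mul_assoc, ← Complex.exp_add]
  congr 2
  push_cast
  ring

/-- The relation on the sphere whose classes are the orbits of the group generated by `g`. -/
def orbitSetoid {n : ℕ} (q : ℕ) (s : Fin n → ℤ) : Setoid (Sph n) where
  r x y := ∃ m : ℤ, (y : Cn n) = rot q s m x
  iseqv := by
    refine ⟨fun x => ⟨0, (rot_zero q s _).symm⟩, ?_, ?_⟩
    · rintro x y ⟨m, h⟩
      exact ⟨-m, by rw [h, rot_rot, neg_add_cancel, rot_zero]⟩
    · rintro x y z ⟨m, h⟩ ⟨m', h'⟩
      exact ⟨m' + m, by rw [h', h, rot_rot]⟩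

/-- The lens space `L(q;s)`: the space of orbits on the unit sphere. -/
def LensSpace {n : ℕ} (q : ℕ) (s : Fin n → ℤ) : Type := Quotient (orbitSetoid q s)

/-- The projection from the sphere to the lens space. -/
def proj {n : ℕ} (q : ℕ) (s : Fin n → ℤ) (x : Sph n) : LensSpace q s := Quotient.mk _ x

/-- The Riemannian distance of the lens space: the smallest angle (that is, spherical distance)
between a representative of `a` and a representative of `b`. -/
noncomputable def lensDist {n : ℕ} {q : ℕ} {s : Fin n → ℤ} (a b : LensSpace q s) : ℝ :=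
  sInf {d : ℝ | ∃ x y : Sph n, proj q s x = a ∧ proj q s y = b ∧
    d = InnerProductGeometry.angle (x : Cn n) (y : Cn n)}

/-- `L(q;s)` and `L(q;s')` are isometric: there is a bijection preserving the Riemannian
distance. -/
def Isometric {n : ℕ} (q : ℕ) (s s' : Fin n → ℤ) : Prop :=
  ∃ f : LensSpace q s ≃ LensSpace q s', ∀ a b, lensDist (f a) (f b) = lensDist a b

/-- The radial projection of a non-zero vector to the unit sphere. -/
noncomputable def normalize {n : ℕ} (x : Cn n) (hx : x ≠ 0) : Sph n :=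
  ⟨‖x‖⁻¹ • x, by
    rw [mem_sphere_zero_iff_norm, norm_smul, norm_inv, norm_norm,
      inv_mul_cancel₀ (norm_ne_zero_iff.mpr hx)]⟩

open Classical in
/-- The pull-back of a function on the lens space to `ℂ^n ∖ {0}` along
`x ↦ [x / |x|]` (with the value `0` at the origin). -/
noncomputable def lift {n : ℕ} {q : ℕ} {s : Fin n → ℤ} (f : LensSpace q s → ℂ) (x : Cn n) : ℂ :=
  if hx : x = 0 then 0 else f (proj q s (normalize x hx))

theorem lift_add {n : ℕ} {q : ℕ} {s : Fin n → ℤ} (f g : LensSpace q s → ℂ) :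
    lift (f + g) = lift f + lift g := by
  ext x
  by_cases hx : x = 0 <;> simp [lift, hx]

theorem lift_smul {n : ℕ} {q : ℕ} {s : Fin n → ℤ} (c : ℂ) (f : LensSpace q s → ℂ) :
    lift (c • f) = c • lift f := by
  ext x
  by_cases hx : x = 0 <;> simp [lift, hx]

theorem two_le_inf : (2 : WithTop ℕ∞) ≤ ∞ := by
  have : ((2 : ℕ∞) : WithTop ℕ∞) ≤ ((⊤ : ℕ∞) : WithTop ℕ∞) := WithTop.coe_le_coe.mpr le_top
  exact this

/-- The eigenspace of the Laplace-Beltrami operator of `L(q;s)` for the eigenvalue `μ`: the smooth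
functions `f : L(q;s) → ℂ` with `-Δ f = μ f`. Smoothness is smoothness of the pull-back of `f` to
`ℂ^n ∖ {0}`, and the Laplace-Beltrami operator of the round unit sphere is the Euclidean
Laplacian `Δ` of the degree-`0` homogeneous extension, restricted to the sphere. -/
noncomputable def eigenspace {n : ℕ} (q : ℕ) (s : Fin n → ℤ) (μ : ℂ) :
    Submodule ℂ (LensSpace q s → ℂ) where
  carrier := {f | ContDiffOn ℝ ∞ (lift f) {0}ᶜ ∧
    ∀ x : Sph n, (Δ (lift f)) (x : Cn n) = - μ * f (proj q s x)}
  zero_mem' := by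
    have h : lift (0 : LensSpace q s → ℂ) = fun _ => 0 := by
      ext x; by_cases hx : x = 0 <;> simp [lift, hx]
    refine ⟨by rw [h]; exact contDiffOn_const, fun x => ?_⟩
    rw [h, laplacian_const]
    simp
  add_mem' := by
    rintro f g ⟨hf, hf'⟩ ⟨hg, hg'⟩
    refine ⟨by rw [lift_add]; exact hf.add hg, fun x => ?_⟩
    have hx : (x : Cn n) ≠ 0 := by
      intro h
      have := x.2
      rw [h] at this
      simp at this
    have h1 := (hf.contDiffAt (isOpen_compl_singleton.mem_nhds hx)).of_le two_le_inf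
    have h2 := (hg.contDiffAt (isOpen_compl_singleton.mem_nhds hx)).of_le two_le_inf
    rw [lift_add, ContDiffAt.laplacian_add h1 h2, hf', hg', Pi.add_apply]
    ring
  smul_mem' := by
    rintro c f ⟨hf, hf'⟩
    refine ⟨by rw [lift_smul]; exact contDiffOn_const.smul hf, fun x => ?_⟩
    have hx : (x : Cn n) ≠ 0 := by
      intro h
      have := x.2
      rw [h] at this
      simp at this
    have h1 := (hf.contDiffAt (isOpen_compl_singleton.mem_nhds hx)).of_le two_le_inf
    rw [lift_smul, laplacian_smul c h1, hf', Pi.smul_apply, smul_eq_mul, smul_eq_mul]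
    ring

/-- `L(q;s)` and `L(q;s')` are isospectral: every `μ` has the same multiplicity (dimension of the
eigenspace, possibly `0`) for the two Laplace-Beltrami operators. -/
def Isospectral {n : ℕ} (q : ℕ) (s s' : Fin n → ℤ) : Prop :=
  ∀ μ : ℂ, Module.rank ℂ (eigenspace q s μ) = Module.rank ℂ (eigenspace q s' μ)

end Pool.Agent.H21.LensDefs
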