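import Mathlib
import Pool.Agent.H21.Lens.Count

set_option autoImplicit false

namespace Pool.Agent.H21.Lens

open Finset PowerSeries

/-- the pair factor `(1 - x^a z)(1 - x^{-a} z)` -/
noncomputable def Pz {q : ℕ} (a : ZMod q) : PowerSeries (GR q) :=
  (1 - C (gx a) * X) * (1 - C (gx (-a)) * X)

/-- its inverse -/
noncomputable def gz {q : ℕ} (a : ZMod q) : PowerSeries (GR q) := geo a * geo (-a)

theorem Pz_mul_gz {q : ℕ} (a : ZMod q) : Pz a * gz a = 1 := by
  have h1 := geo_mul a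
  have h2 := geo_mul (-a)
  calc Pz a * gz a = ((1 - C (gx a) * X) * geo a) * ((1 - C (gx (-a)) * X) * geo (-a)) := by
        unfold Pz gz; ring
    _ = 1 := by rw [h1, h2, one_mul]

theorem Pz_expand {q : ℕ} (a : ZMod q) :
    Pz a = 1 - (C (gx a) + C (gx (-a))) * X + X ^ 2 := by
  have h : (C (gx a) : PowerSeries (GR q)) * C (gx (-a)) = 1 := by
    rw [← map_mul, gx_mul, add_neg_cancel, gx_zero, map_one]
  unfold Pz
  linear_combination X ^ 2 * h

/-- `x^25 + x^{-25} - x^17 - x^{-17}` -/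
noncomputable def kap : GR 56 := gx 25 + gx (-25) - gx 17 - gx (-17)

theorem gz_sub : gz (25 : ZMod 56) - gz 17 = C kap * X * (gz 25 * gz 17) := by
  have h1 := Pz_mul_gz (25 : ZMod 56)
  have h2 := Pz_mul_gz (17 : ZMod 56)
  have h3 : Pz (17 : ZMod 56) - Pz 25 = C kap * X := by
    rw [Pz_expand, Pz_expand, kap]
    simp only [map_add, map_sub]
    ring
  rw [← h3]
  linear_combination (gz 17) * h1 - (gz 25) * h2

theorem HH_eq : HH = gz 1 * gz 3 * gz 5 * gz 9 * gz 11 * gz 13 * gz 15 * gz 17 * gz 19 * gz 23 *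
    gz 25 * gz 27 := by
  have e : ∀ a b : ZMod 56, -a = b → gz a = geo a * geo b := by
    intro a b h; rw [gz, h]
  rw [e 1 55 (by decide), e 3 53 (by decide), e 5 51 (by decide), e 9 47 (by decide),
    e 11 45 (by decide), e 13 43 (by decide), e 15 41 (by decide), e 17 39 (by decide),
    e 19 37 (by decide), e 23 33 (by decide), e 25 31 (by decide), e 27 29 (by decide)]
  unfold HH U56
  repeat rw [Finset.prod_insert (by decide)]
  rw [Finset.prod_singleton]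
  ring

theorem W_kappa : W (C (gx (1 : ZMod 56))) X [kappaRow] = C kap := by
  have e : kappaRow = [0,0,0,0,0,0,0,0,0,0,0,0,0,0,0,0,0,-1,0,0,0,0,0,0,0,1,0,0,0,0,0,1,0,0,0,0,0,0,0,-1,0,0,0,0,0,0,0,0,0,0,0,0,0,0,0,0] := by
    decide +kernel
  have hp : ∀ n : ℕ, (C (gx (1 : ZMod 56)) : PowerSeries (GR 56)) ^ n = C (gx ((n : ZMod 56))) := by
    intro n; rw [← map_pow, gx_pow, mul_one]
  have h25 := hp 25
  have h31 := hp 31
  have h17 := hp 17
  have h39 := hp 39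
  have e31 : ((31 : ℕ) : ZMod 56) = -25 := by decide
  have e39 : ((39 : ℕ) : ZMod 56) = -17 := by decide
  rw [e31] at h31
  rw [e39] at h39
  have k1 : (C kap : PowerSeries (GR 56)) = C (gx 25) + C (gx (-25)) - C (gx 17) - C (gx (-17)) := by
    simp [kap]
  rw [k1, e]
  simp only [W, V, Int.cast_zero, Int.cast_one, Int.cast_neg]
  push_cast at h25 h31 h17 h39
  linear_combination h25 + h31 - h17 - h39

theorem W_step (a : ℕ) (ha : a ≤ 56) (L : List (List ℤ)) (hL : Good L) :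
    W (C (gx (1 : ZMod 56))) X (mulP a L) = Pz (a : ZMod 56) * W (C (gx (1 : ZMod 56))) X L := by
  have hp : ∀ n : ℕ, (C (gx (1 : ZMod 56)) : PowerSeries (GR 56)) ^ n = C (gx ((n : ZMod 56))) := by
    intro n; rw [← map_pow, gx_pow, mul_one]
  rw [W_mulP (C (gx (1 : ZMod 56))) X a ha (C (gx (a : ZMod 56))) (C (gx (-(a : ZMod 56)))) _ _ _ L hL,
    Pz_expand]
  · rw [hp]
    have : ((56 : ℕ) : ZMod 56) = 0 := by decide
    rw [this, gx_zero, map_one]
  · rw [hp, ← map_mul, gx_mul, add_neg_cancel, gx_zero, map_one]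
  · rw [hp, ← map_mul, gx_mul, ← Nat.cast_add, Nat.sub_add_cancel ha]
    have : ((56 : ℕ) : ZMod 56) = 0 := by decide
    rw [this, gx_zero, map_one]

theorem W_fold : ∀ (l : List ℕ) (_ : ∀ a ∈ l, a ≤ 56) (L : List (List ℤ)) (_ : Good L),
    W (C (gx (1 : ZMod 56))) X (l.foldl (fun L a => mulP a L) L) =
      (l.map (fun a : ℕ => Pz (a : ZMod 56))).prod * W (C (gx (1 : ZMod 56))) X L
  | [], _, L, _ => by simp
  | a :: as, h, L, hL => by
    rw [List.foldl_cons, W_fold as (fun b hb => h b (by simp [hb])) _ (good_mulP a L hL),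
      W_step a (h a (by simp)) L hL, List.map_cons, List.prod_cons]
    ring

theorem W_tableS : W (C (gx (1 : ZMod 56))) X tableS =
    C kap * (Pz 3 * Pz 5 * Pz 5 * Pz 9 * Pz 11 * Pz 13 * Pz 15 * Pz 19 * Pz 19 * Pz 23 * Pz 27 *
      Pz 27) := by
  have hg : Good [kappaRow] := by
    intro r hr
    simp only [List.mem_singleton] at hr
    left; rw [hr]; simp [kappaRow]
  unfold tableS
  rw [W_fold _ (by decide) _ hg, W_kappa]
  simp only [List.map_cons, List.map_nil, List.prod_cons, List.prod_nil]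
  push_cast
  ring

theorem main_zero (k : ℕ) : (PowerSeries.coeff k (C kap * (gz 1 * gz 1 * gz 3 * gz 9 * gz 11 * gz 13 *
    gz 15 * gz 17 * gz 17 * gz 23 * gz 25 * gz 25))).coeff 0 = 0 := by
  have h := coeff_W_mul tableS (HH ^ 2) (fun k u hu c => coeff_HH_sq_inv hu k c) tableS_check k
  rw [W_tableS, HH_eq] at h
  have e : (C kap * (Pz 3 * Pz 5 * Pz 5 * Pz 9 * Pz 11 * Pz 13 * Pz 15 * Pz 19 * Pz 19 * Pz 23 * Pz 27 *
      Pz 27)) * (gz 1 * gz 3 * gz 5 * gz 9 * gz 11 * gz 13 * gz 15 * gz 17 * gz 19 * gz 23 *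
    gz 25 * gz 27) ^ 2 = C kap * (gz 1 * gz 1 * gz 3 * gz 9 * gz 11 * gz 13 *
    gz 15 * gz 17 * gz 17 * gz 23 * gz (25 : ZMod 56) * gz 25) := by
    calc _ = C kap * (gz 1 * gz 1 * gz 3 * gz 9 * gz 11 * gz 13 *
        gz 15 * gz 17 * gz 17 * gz 23 * gz (25 : ZMod 56) * gz 25) *
        ((Pz 3 * gz 3) * (Pz 5 * gz 5) ^ 2 * (Pz 9 * gz 9) * (Pz 11 * gz 11) * (Pz 13 * gz 13) *
          (Pz 15 * gz 15) * (Pz 19 * gz 19) ^ 2 * (Pz 23 * gz 23) * (Pz 27 * gz 27) ^ 2) := by ring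
      _ = _ := by simp only [Pz_mul_gz, one_pow, mul_one]
  rw [e] at h
  exact h

/-- the number of solutions -/
def cnt {ι : Type*} [Fintype ι] [DecidableEq ι] {q : ℕ} (w : ι → ZMod q) (k : ℕ) : ℕ :=
  ((Finset.univ.finsuppAntidiag k).filter (fun l : ι →₀ ℕ => ∑ i, (l i : ZMod q) * w i = 0)).card

theorem cnt_eq {ι : Type*} [Fintype ι] [DecidableEq ι] {q : ℕ} (w : ι → ZMod q) (k : ℕ) :
    (cnt w k : ℤ) = (PowerSeries.coeff k (∏ i, geo (w i))).coeff 0 := by
  have hprod : ∀ (f : ι → ZMod q) (s : Finset ι), ∏ i ∈ s, gx (f i) = gx (∑ i ∈ s, f i) := by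
    intro f s
    induction s using Finset.induction_on with
    | empty => simp [gx_zero]
    | insert a s ha ih => rw [Finset.prod_insert ha, Finset.sum_insert ha, ih, gx_mul]
  rw [PowerSeries.coeff_prod]
  simp only [geo, coeff_mk, hprod]
  rw [AddMonoidAlgebra.coeff_sum, Finsupp.finset_sum_apply]
  simp only [gx, AddMonoidAlgebra.coeff_single, Finsupp.single_apply]
  rw [Finset.sum_boole, cnt]

/-- first weight vector -/
def s1 : Fin 11 → ZMod 56 := ![1, 1, 3, 9, 11, 13, 15, 17, 23, 25, 25]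
/-- second weight vector -/
def s2 : Fin 11 → ZMod 56 := ![1, 1, 3, 9, 11, 13, 15, 17, 17, 23, 25]

theorem prod_s1 : ∏ i, geo (Sum.elim s1 (fun j => - s1 j) i) =
    gz 1 * gz 1 * gz 3 * gz 9 * gz 11 * gz 13 * gz 15 * gz 17 * gz 23 * gz 25 * gz 25 := by
  rw [Fintype.prod_sum_type]
  simp only [Sum.elim_inl, Sum.elim_inr, gz]
  rw [← Finset.prod_mul_distrib]
  simp [Fin.prod_univ_succ, s1]
  ring

theorem prod_s2 : ∏ i, geo (Sum.elim s2 (fun j => - s2 j) i) =
    gz 1 * gz 1 * gz 3 * gz 9 * gz 11 * gz 13 * gz 15 * gz 17 * gz 17 * gz 23 * gz 25 := by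
  rw [Fintype.prod_sum_type]
  simp only [Sum.elim_inl, Sum.elim_inr, gz]
  rw [← Finset.prod_mul_distrib]
  simp [Fin.prod_univ_succ, s2]
  ring

theorem cnt_s1_eq_s2 (k : ℕ) :
    cnt (Sum.elim s1 (fun j => - s1 j)) k = cnt (Sum.elim s2 (fun j => - s2 j)) k := by
  have h : (cnt (Sum.elim s1 (fun j => - s1 j)) k : ℤ) = cnt (Sum.elim s2 (fun j => - s2 j)) k := by
    rw [cnt_eq, cnt_eq, prod_s1, prod_s2, ← sub_eq_zero, ← Finsupp.sub_apply,
      ← AddMonoidAlgebra.coeff_sub, ← map_sub]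
    have e : gz 1 * gz 1 * gz 3 * gz 9 * gz 11 * gz 13 * gz 15 * gz 17 * gz 23 * gz 25 * gz 25 -
      gz 1 * gz 1 * gz 3 * gz 9 * gz 11 * gz 13 * gz 15 * gz 17 * gz 17 * gz 23 * gz (25 : ZMod 56)
      = X * (C kap * (gz 1 * gz 1 * gz 3 * gz 9 * gz 11 * gz 13 *
    gz 15 * gz 17 * gz 17 * gz 23 * gz 25 * gz 25)) := by
      linear_combination (gz 1 * gz 1 * gz 3 * gz 9 * gz 11 * gz 13 * gz 15 * gz 17 * gz 23 * gz 25) * gz_sub
    rw [e]
    cases k with
    | zero => simp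
    | succ k => rw [coeff_succ_X_mul]; exact main_zero k
  exact_mod_cast h

end Pool.Agent.H21.Lens
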