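import Mathlib
import Pool.Agent.H21.Lens.Main1

set_option autoImplicit false

namespace Pool.Agent.H21.Lens

open MvPolynomial Finset

variable {n : ℕ}

/-- polynomials in `z_1..z_n` (left variables) and their conjugates (right variables) -/
abbrev MP (n : ℕ) := MvPolynomial (Fin n ⊕ Fin n) ℂ

/-- a quarter of the Laplacian: `∑ ∂/∂z_j ∂/∂zbar_j` -/
noncomputable def Lap : MP n →ₗ[ℂ] MP n :=
  ∑ j : Fin n, ((pderiv (R := ℂ) (Sum.inl j : Fin n ⊕ Fin n)).toLinearMap ∘ₗ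
    (pderiv (R := ℂ) (Sum.inr j : Fin n ⊕ Fin n)).toLinearMap)

theorem Lap_apply (P : MP n) :
    Lap P = ∑ j : Fin n, pderiv (Sum.inl j) (pderiv (Sum.inr j) P) := by
  simp [Lap, LinearMap.sum_apply]

/-- `|z|^2` -/
noncomputable def r2 : MP n := ∑ j : Fin n, X (Sum.inl j) * X (Sum.inr j)

theorem pderiv_inr_r2 (j : Fin n) : pderiv (Sum.inr j) (r2 : MP n) = X (Sum.inl j) := by
  classical
  simp only [r2, map_sum, pderiv_mul]
  rw [Finset.sum_eq_single j]
  · simp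
  · intro b _ hb
    rw [pderiv_X_of_ne (by simp), pderiv_X_of_ne (by simpa using hb)]
    simp
  · simp

theorem pderiv_inl_r2 (j : Fin n) : pderiv (Sum.inl j) (r2 : MP n) = X (Sum.inr j) := by
  classical
  simp only [r2, map_sum, pderiv_mul]
  rw [Finset.sum_eq_single j]
  · simp
  · intro b _ hb
    rw [pderiv_X_of_ne (by simpa using hb), pderiv_X_of_ne (by simp)]
    simp
  · simp

theorem Lap_r2_mul (Q : MP n) (d : ℕ) (hQ : Q.IsHomogeneous d) :
    Lap (r2 * Q) = ((n + d : ℕ) : MP n) * Q + r2 * Lap Q := by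
  rw [Lap_apply, Lap_apply]
  have h : ∀ j : Fin n, pderiv (Sum.inl j) (pderiv (Sum.inr j) (r2 * Q)) =
      Q + (X (Sum.inl j) * pderiv (Sum.inl j) Q + X (Sum.inr j) * pderiv (Sum.inr j) Q) +
        r2 * pderiv (Sum.inl j) (pderiv (Sum.inr j) Q) := by
    intro j
    rw [pderiv_mul, pderiv_inr_r2, map_add, pderiv_mul, pderiv_mul, pderiv_inl_r2, pderiv_X_self]
    ring
  simp only [h]
  rw [Finset.sum_add_distrib, Finset.sum_add_distrib, ← Finset.mul_sum]
  have e := hQ.sum_X_mul_pderiv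
  rw [Fintype.sum_sum_type, ← Finset.sum_add_distrib] at e
  rw [e]
  simp only [Finset.sum_const, Finset.card_univ, Fintype.card_fin, nsmul_eq_mul]
  push_cast
  ring

theorem r2_homog : (r2 : MP n).IsHomogeneous 2 := by
  unfold r2
  apply MvPolynomial.IsHomogeneous.sum
  intro j _
  exact (isHomogeneous_X ℂ _).mul (isHomogeneous_X ℂ _)

theorem Lap_r2_pow_mul (Q : MP n) (d : ℕ) (hQ : Q.IsHomogeneous d) : ∀ m : ℕ,
    Lap (r2 ^ (m + 1) * Q) = (((m + 1) * (n + d + m) : ℕ) : MP n) * (r2 ^ m * Q) +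
      r2 ^ (m + 1) * Lap Q := by
  intro m
  induction m with
  | zero => simpa using Lap_r2_mul Q d hQ
  | succ m ih =>
    have h1 : (r2 ^ (m + 1) * Q).IsHomogeneous (2 * (m + 1) + d) := (r2_homog.pow (m + 1)).mul hQ
    have h2 := Lap_r2_mul _ _ h1
    rw [ih] at h2
    rw [pow_succ' r2 (m + 1), mul_assoc, h2]
    push_cast
    ring

theorem Lap_homog {d : ℕ} {Q : MP n} (hQ : Q.IsHomogeneous (d + 2)) : (Lap Q).IsHomogeneous d := by
  rw [Lap_apply]
  apply MvPolynomial.IsHomogeneous.sum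
  intro j _
  exact (hQ.pderiv (i := Sum.inr j)).pderiv (i := Sum.inl j)

theorem Lap_low {d : ℕ} (hd : d < 2) {Q : MP n} (hQ : Q.IsHomogeneous d) : Lap Q = 0 := by
  rw [Lap_apply]
  apply Finset.sum_eq_zero
  intro j _
  have h1 := hQ.pderiv (i := Sum.inr j)
  have h2 : (pderiv (Sum.inr j) Q).IsHomogeneous 0 := by
    have : d - 1 = 0 := by omega
    rwa [this] at h1
  rw [← totalDegree_zero_iff_isHomogeneous, totalDegree_eq_zero_iff_eq_C] at h2
  rw [h2, pderiv_C]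

theorem r2_ne_zero (hn : 0 < n) : (r2 : MP n) ≠ 0 := by
  intro h
  have := pderiv_inr_r2 (⟨0, hn⟩ : Fin n)
  rw [h, map_zero] at this
  exact (X_ne_zero _ this.symm)

theorem Lap_inj (hn : 0 < n) : ∀ (d m : ℕ) (Q : MP n), Q.IsHomogeneous d →
    Lap (r2 ^ (m + 1) * Q) = 0 → Q = 0 := by
  intro d
  induction d using Nat.strong_induction_on with
  | _ d ih =>
    intro m Q hQ h
    have hc : (((m + 1) * (n + d + m) : ℕ) : MP n) ≠ 0 := by
      apply Nat.cast_ne_zero.mpr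
      positivity
    rw [Lap_r2_pow_mul Q d hQ m] at h
    have h1 : r2 ^ m * ((((m + 1) * (n + d + m) : ℕ) : MP n) * Q + r2 * Lap Q) = 0 := by
      rw [← h]; ring
    have h2 : (((m + 1) * (n + d + m) : ℕ) : MP n) * Q + r2 * Lap Q = 0 := by
      rcases mul_eq_zero.mp h1 with h1 | h1
      · exact absurd h1 (pow_ne_zero _ (r2_ne_zero hn))
      · exact h1
    by_cases hd : d < 2
    · rw [Lap_low hd hQ, mul_zero, add_zero] at h2
      exact (mul_eq_zero.mp h2).resolve_left hc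
    · obtain ⟨e, rfl⟩ : ∃ e, d = e + 2 := ⟨d - 2, by omega⟩
      have hL : (Lap Q).IsHomogeneous e := Lap_homog hQ
      have h3 : Lap (r2 ^ (m + 1 + 1) * Lap Q) = 0 := by
        have h4 : r2 ^ (m + 1 + 1) * Lap Q =
            - ((((m + 1) * (n + (e + 2) + m) : ℕ) : MP n) * (r2 ^ (m + 1) * Q)) := by
          have : r2 * Lap Q = - ((((m + 1) * (n + (e + 2) + m) : ℕ) : MP n) * Q) := by
            linear_combination h2
          rw [pow_succ r2 (m + 1), mul_assoc, this]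
          ring
        rw [h4, map_neg]
        have h5 : Lap ((((m + 1) * (n + (e + 2) + m) : ℕ) : MP n) * (r2 ^ (m + 1) * Q)) =
            (((m + 1) * (n + (e + 2) + m) : ℕ) : MP n) * Lap (r2 ^ (m + 1) * Q) := by
          rw [← nsmul_eq_mul, map_nsmul, nsmul_eq_mul]
        rw [h5, Lap_r2_pow_mul Q _ hQ m, h, mul_zero, neg_zero]
      have h6 := ih e (by omega) (m + 1) (Lap Q) hL h3
      rw [h6, mul_zero, add_zero] at h2
      exact (mul_eq_zero.mp h2).resolve_left hc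

/-! ### weights -/

variable {q : ℕ}

/-- the combined weight: degree and residue -/
def WW (w : Fin n ⊕ Fin n → ZMod q) : Fin n ⊕ Fin n → ℕ × ZMod q := fun i => (1, w i)

/-- homogeneous polynomials of degree `k` all of whose monomials have residue weight `0` -/
noncomputable def MM (w : Fin n ⊕ Fin n → ZMod q) (k : ℕ) : Submodule ℂ (MP n) :=
  weightedHomogeneousSubmodule ℂ (WW w) (k, 0)

theorem mem_MM_iff (w : Fin n ⊕ Fin n → ZMod q) (k : ℕ) (P : MP n) :
    P ∈ MM w k ↔ P.IsHomogeneous k ∧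
      ∀ e : Fin n ⊕ Fin n →₀ ℕ, P.coeff e ≠ 0 → ∑ i, (e i : ZMod q) * w i = 0 := by
  unfold MM
  rw [mem_weightedHomogeneousSubmodule]
  have hw : ∀ e : Fin n ⊕ Fin n →₀ ℕ, Finsupp.weight (WW w) e = (e.degree, ∑ i, (e i : ZMod q) * w i) := by
    intro e
    rw [Finsupp.weight_apply, Finsupp.sum_fintype _ _ (by simp)]
    ext
    · simp [WW, Finsupp.degree_eq_sum, Prod.fst_sum]
    · simp [WW, Prod.snd_sum]
  have hd : ∀ e : Fin n ⊕ Fin n →₀ ℕ, Finsupp.weight (1 : Fin n ⊕ Fin n → ℕ) e = e.degree := by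
    intro e
    rw [Finsupp.weight_apply, Finsupp.sum_fintype _ _ (by simp)]
    simp [Finsupp.degree_eq_sum]
  constructor
  · intro h
    constructor
    · intro e he
      have := h he
      rw [hw] at this
      rw [hd]
      exact (Prod.mk.inj this).1
    · intro e he
      have := h he
      rw [hw] at this
      exact (Prod.mk.inj this).2
  · rintro ⟨h1, h2⟩ e he
    rw [hw, h2 e he, ← hd, h1 he]


theorem finrank_MM (w : Fin n ⊕ Fin n → ZMod q) (k : ℕ) :
    Module.finrank ℂ (MM w k) = cnt w k := by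
  classical
  have hw : ∀ e : Fin n ⊕ Fin n →₀ ℕ, Finsupp.weight (WW w) e = (e.degree, ∑ i, (e i : ZMod q) * w i) := by
    intro e
    rw [Finsupp.weight_apply, Finsupp.sum_fintype _ _ (by simp)]
    ext
    · simp [WW, Finsupp.degree_eq_sum, Prod.fst_sum]
    · simp [WW, Prod.snd_sum]
  have hs : MM w k = restrictSupport ℂ
      (((Finset.univ.finsuppAntidiag k).filter
        (fun l : Fin n ⊕ Fin n →₀ ℕ => ∑ i, (l i : ZMod q) * w i = 0) :
          Finset (Fin n ⊕ Fin n →₀ ℕ)) : Set (Fin n ⊕ Fin n →₀ ℕ)) := by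
    unfold MM
    rw [weightedHomogeneousSubmodule_eq_finsupp_supported]
    have : {d : Fin n ⊕ Fin n →₀ ℕ | (Finsupp.weight (WW w)) d = (k, 0)} =
      (((Finset.univ.finsuppAntidiag k).filter
        (fun l : Fin n ⊕ Fin n →₀ ℕ => ∑ i, (l i : ZMod q) * w i = 0) :
          Finset (Fin n ⊕ Fin n →₀ ℕ)) : Set (Fin n ⊕ Fin n →₀ ℕ)) := by
      ext e
      simp only [Set.mem_setOf_eq, hw, Prod.mk.injEq, Finset.coe_filter, Finset.mem_finsuppAntidiag,
        Finset.subset_univ, and_true, Finsupp.degree_eq_sum]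
    rw [this]
    rfl
  rw [hs, Module.finrank_eq_card_basis (basisRestrictSupport ℂ _)]
  simp [cnt]

instance finite_MM (w : Fin n ⊕ Fin n → ZMod q) (k : ℕ) : Module.Finite ℂ (MM w k) := by
  classical
  have hw : ∀ e : Fin n ⊕ Fin n →₀ ℕ, Finsupp.weight (WW w) e = (e.degree, ∑ i, (e i : ZMod q) * w i) := by
    intro e
    rw [Finsupp.weight_apply, Finsupp.sum_fintype _ _ (by simp)]
    ext
    · simp [WW, Finsupp.degree_eq_sum, Prod.fst_sum]
    · simp [WW, Prod.snd_sum]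
  have hs : MM w k = restrictSupport ℂ
      (((Finset.univ.finsuppAntidiag k).filter
        (fun l : Fin n ⊕ Fin n →₀ ℕ => ∑ i, (l i : ZMod q) * w i = 0) :
          Finset (Fin n ⊕ Fin n →₀ ℕ)) : Set (Fin n ⊕ Fin n →₀ ℕ)) := by
    unfold MM
    rw [weightedHomogeneousSubmodule_eq_finsupp_supported]
    have : {d : Fin n ⊕ Fin n →₀ ℕ | (Finsupp.weight (WW w)) d = (k, 0)} =
      (((Finset.univ.finsuppAntidiag k).filter
        (fun l : Fin n ⊕ Fin n →₀ ℕ => ∑ i, (l i : ZMod q) * w i = 0) :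
          Finset (Fin n ⊕ Fin n →₀ ℕ)) : Set (Fin n ⊕ Fin n →₀ ℕ)) := by
      ext e
      simp only [Set.mem_setOf_eq, hw, Prod.mk.injEq, Finset.coe_filter, Finset.mem_finsuppAntidiag,
        Finset.subset_univ, and_true, Finsupp.degree_eq_sum]
    rw [this]
    rfl
  rw [hs]
  exact Module.Finite.of_basis (basisRestrictSupport ℂ _)

theorem Lap_MM {w : Fin n ⊕ Fin n → ZMod q} (hw : ∀ j, w (Sum.inr j) = - w (Sum.inl j)) {k : ℕ}
    {P : MP n} (hP : P ∈ MM w (k + 2)) : Lap P ∈ MM w k := by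
  rw [Lap_apply]
  apply Submodule.sum_mem
  intro j _
  unfold MM at hP ⊢
  rw [mem_weightedHomogeneousSubmodule] at hP ⊢
  have h1 : (pderiv (Sum.inr j) P).IsWeightedHomogeneous (WW w) (k + 1, w (Sum.inl j)) := by
    apply IsWeightedHomogeneous.pderiv hP
    simp [WW, hw]
  apply IsWeightedHomogeneous.pderiv h1
  simp [WW]

theorem r2_mul_MM {w : Fin n ⊕ Fin n → ZMod q} (hw : ∀ j, w (Sum.inr j) = - w (Sum.inl j)) {k : ℕ}
    {P : MP n} (hP : P ∈ MM w k) : r2 * P ∈ MM w (k + 2) := by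
  unfold MM at hP ⊢
  rw [mem_weightedHomogeneousSubmodule] at hP ⊢
  have h2 : (r2 : MP n).IsWeightedHomogeneous (WW w) (2, 0) := by
    rw [← mem_weightedHomogeneousSubmodule]
    unfold r2
    apply Submodule.sum_mem
    intro j _
    rw [mem_weightedHomogeneousSubmodule]
    have := (isWeightedHomogeneous_X ℂ (WW w) (Sum.inl j)).mul (isWeightedHomogeneous_X ℂ (WW w) (Sum.inr j))
    simpa [WW, hw] using this
  have := h2.mul hP
  simpa [add_comm] using this

theorem MM_homog {w : Fin n ⊕ Fin n → ZMod q} {k : ℕ} {P : MP n} (hP : P ∈ MM w k) :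
    P.IsHomogeneous k := ((mem_MM_iff w k P).mp hP).1

/-- `Q ↦ Lap (r2 Q)` on `MM w k` -/
noncomputable def TT {w : Fin n ⊕ Fin n → ZMod q} (hw : ∀ j, w (Sum.inr j) = - w (Sum.inl j)) (k : ℕ) :
    MM w k →ₗ[ℂ] MM w k where
  toFun Q := ⟨Lap (r2 * Q.1), Lap_MM hw (r2_mul_MM hw Q.2)⟩
  map_add' a b := by ext1; simp [mul_add]
  map_smul' c a := by ext1; simp

theorem TT_surj (hn : 0 < n) {w : Fin n ⊕ Fin n → ZMod q} (hw : ∀ j, w (Sum.inr j) = - w (Sum.inl j))
    (k : ℕ) : Function.Surjective (TT hw k) := by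
  apply LinearMap.injective_iff_surjective.mp
  rw [← LinearMap.ker_eq_bot, LinearMap.ker_eq_bot']
  intro Q hQ
  have h1 : Lap (r2 * Q.1) = 0 := congrArg Subtype.val hQ
  have := Lap_inj hn k 0 Q.1 (MM_homog Q.2) (by simpa using h1)
  exact Subtype.ext this

/-- the harmonic part of `MM w k` -/
noncomputable def HM (w : Fin n ⊕ Fin n → ZMod q) (k : ℕ) : Submodule ℂ (MP n) :=
  MM w k ⊓ LinearMap.ker Lap

theorem HM_low (w : Fin n ⊕ Fin n → ZMod q) {k : ℕ} (hk : k < 2) : HM w k = MM w k := by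
  unfold HM
  apply inf_eq_left.mpr
  intro P hP
  rw [LinearMap.mem_ker]
  exact Lap_low hk (MM_homog hP)

/-- the Laplacian from degree `k+2` to degree `k` -/
noncomputable def LL {w : Fin n ⊕ Fin n → ZMod q} (hw : ∀ j, w (Sum.inr j) = - w (Sum.inl j)) (k : ℕ) :
    MM w (k + 2) →ₗ[ℂ] MM w k where
  toFun Q := ⟨Lap Q.1, Lap_MM hw Q.2⟩
  map_add' a b := by ext1; simp
  map_smul' c a := by ext1; simp

theorem LL_surj (hn : 0 < n) {w : Fin n ⊕ Fin n → ZMod q} (hw : ∀ j, w (Sum.inr j) = - w (Sum.inl j))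
    (k : ℕ) : Function.Surjective (LL hw k) := by
  intro Q
  obtain ⟨P, hP⟩ := TT_surj hn hw k Q
  refine ⟨⟨r2 * P.1, r2_mul_MM hw P.2⟩, ?_⟩
  rw [← hP]
  rfl

theorem finrank_HM (hn : 0 < n) {w : Fin n ⊕ Fin n → ZMod q} (hw : ∀ j, w (Sum.inr j) = - w (Sum.inl j))
    (k : ℕ) : Module.finrank ℂ (HM w (k + 2)) + cnt w k = cnt w (k + 2) := by
  have h1 := LinearMap.finrank_range_add_finrank_ker (LL hw k)
  rw [LinearMap.range_eq_top.mpr (LL_surj hn hw k), finrank_top, finrank_MM, finrank_MM] at h1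
  have h2 : Module.finrank ℂ (LinearMap.ker (LL hw k)) = Module.finrank ℂ (HM w (k + 2)) := by
    apply LinearEquiv.finrank_eq
    have e : (LinearMap.ker (LL hw k)).map (MM w (k + 2)).subtype = HM w (k + 2) := by
      ext P
      simp only [Submodule.mem_map, LinearMap.mem_ker, Submodule.subtype_apply, HM, Submodule.mem_inf]
      constructor
      · rintro ⟨Q, hQ, rfl⟩
        exact ⟨Q.2, congrArg Subtype.val hQ⟩
      · rintro ⟨h1, h2⟩
        exact ⟨⟨P, h1⟩, Subtype.ext h2, rfl⟩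
    exact (Submodule.equivMapOfInjective _ (Submodule.injective_subtype _) _).trans
      (LinearEquiv.ofEq _ _ e)
  omega

theorem finrank_HM_eq (hn : 0 < n) {w w' : Fin n ⊕ Fin n → ZMod q}
    (hw : ∀ j, w (Sum.inr j) = - w (Sum.inl j)) (hw' : ∀ j, w' (Sum.inr j) = - w' (Sum.inl j))
    (h : ∀ k, cnt w k = cnt w' k) (k : ℕ) :
    Module.finrank ℂ (HM w k) = Module.finrank ℂ (HM w' k) := by
  by_cases hk : k < 2
  · rw [HM_low w hk, HM_low w' hk, finrank_MM, finrank_MM, h]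
  · obtain ⟨m, rfl⟩ : ∃ m, k = m + 2 := ⟨k - 2, by omega⟩
    have h1 := finrank_HM hn hw m
    have h2 := finrank_HM hn hw' m
    rw [h, h (m + 2)] at h1
    omega

/-- decomposition of homogeneous polynomials -/
theorem decomp (hn : 0 < n) {k : ℕ} {P : MP n} (hP : P.IsHomogeneous (k + 2)) :
    ∃ h Q : MP n, h.IsHomogeneous (k + 2) ∧ Lap h = 0 ∧ Q.IsHomogeneous k ∧ P = h + r2 * Q := by
  have hw : ∀ j : Fin n, (0 : Fin n ⊕ Fin n → ZMod 1) (Sum.inr j) = - (0 : Fin n ⊕ Fin n → ZMod 1) (Sum.inl j) := by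
    intro j; simp
  have hP' : P ∈ MM (0 : Fin n ⊕ Fin n → ZMod 1) (k + 2) := by
    rw [mem_MM_iff]
    exact ⟨hP, fun e _ => by simp⟩
  obtain ⟨Q, hQ⟩ := TT_surj hn hw k ⟨Lap P, Lap_MM hw hP'⟩
  have hQ' : Lap (r2 * Q.1) = Lap P := congrArg Subtype.val hQ
  refine ⟨P - r2 * Q.1, Q.1, ?_, ?_, MM_homog Q.2, by ring⟩
  · have h1 := MM_homog (r2_mul_MM hw Q.2)
    exact hP.sub h1
  · rw [map_sub, hQ', sub_self]

end Pool.Agent.H21.Lens
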