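import Mathlib
import Pool.Agent.H21.Lens.Defs
import Pool.Agent.H21.Sph.Classify

set_option autoImplicit false

namespace Pool.Agent.H21.LensDefs

open InnerProductSpace Laplacian MvPolynomial Pool.Agent.H21.Lens Pool.Agent.H21.Sph
open scoped ContDiff ComplexConjugate

variable {n : ℕ} (q : ℕ) (s : Fin n → ℤ)

/-- `exp(2πi N/q)` -/
noncomputable def xi (N : ℤ) : ℂ := Complex.exp (2 * Real.pi * Complex.I * (N : ℂ) / q)

theorem xi_zero : xi q 0 = 1 := by simp [xi]

theorem xi_add (a b : ℤ) : xi q (a + b) = xi q a * xi q b := by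
  unfold xi
  rw [← Complex.exp_add]
  congr 1
  push_cast
  ring

theorem xi_conj (a : ℤ) : conj (xi q a) = xi q (-a) := by
  unfold xi
  rw [← Complex.exp_conj]
  congr 1
  have h2 : (starRingEnd ℂ) (2 : ℂ) = 2 := Complex.conj_ofReal 2
  simp [Complex.conj_ofReal, h2]

theorem xi_pow (a : ℤ) (k : ℕ) : xi q a ^ k = xi q (k * a) := by
  induction k with
  | zero => simp [xi_zero]
  | succ k ih => rw [pow_succ, ih, ← xi_add]; congr 1; push_cast; ring

theorem xi_prod {ι : Type*} (t : Finset ι) (f : ι → ℤ) : ∏ i ∈ t, xi q (f i) = xi q (∑ i ∈ t, f i) := by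
  classical
  induction t using Finset.induction_on with
  | empty => simp [xi_zero]
  | insert a t ha ih => rw [Finset.prod_insert ha, Finset.sum_insert ha, ih, xi_add]

theorem xi_eq_one_iff (hq : 0 < q) (N : ℤ) : xi q N = 1 ↔ (N : ZMod q) = 0 := by
  unfold xi
  rw [Complex.exp_eq_one_iff]
  have hq' : (q : ℂ) ≠ 0 := by exact_mod_cast hq.ne'
  have hpi : (2 * Real.pi * Complex.I : ℂ) ≠ 0 := by
    simp [Complex.I_ne_zero, Real.pi_ne_zero]
  rw [ZMod.intCast_zmod_eq_zero_iff_dvd]
  constructor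
  · rintro ⟨m, hm⟩
    refine ⟨m, ?_⟩
    have h1 : (2 * Real.pi * Complex.I : ℂ) * (N : ℂ) = (2 * Real.pi * Complex.I : ℂ) * (q * m : ℂ) := by
      field_simp at hm
      linear_combination (2 * Real.pi * Complex.I : ℂ) * hm
    have h2 := mul_left_cancel₀ hpi h1
    exact_mod_cast h2
  · rintro ⟨m, hm⟩
    refine ⟨m, ?_⟩
    rw [hm]
    push_cast
    field_simp

/-- integer weights -/
def Wt : Fin n ⊕ Fin n → ℤ := Sum.elim s (fun j => - s j)

/-- weights modulo `q` -/
def wt : Fin n ⊕ Fin n → ZMod q := Sum.elim (fun j => (s j : ZMod q)) (fun j => - (s j : ZMod q))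

theorem wt_eq (i : Fin n ⊕ Fin n) : wt q s i = (Wt s i : ZMod q) := by
  rcases i with i | i <;> simp [wt, Wt]

theorem pt_rot (m : ℤ) (x : Cn n) (i : Fin n ⊕ Fin n) :
    pt (rot q s m x) i = xi q (m * Wt s i) * pt x i := by
  rcases i with j | j
  · simp [pt, rot, Wt, xi]
  · have h : (rot q s m x) j = xi q (m * s j) * x j := by simp [rot, xi]
    simp only [pt, Sum.elim_inr, Wt, h, map_mul, xi_conj]
    congr 2
    ring

/-- the substitution corresponding to `g` -/
noncomputable def tw : MP n →ₐ[ℂ] MP n := aeval (fun i => C (xi q (Wt s i)) * X i)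

theorem ev_tw (P : MP n) (x : Cn n) : ev (tw q s P) x = ev P (rot q s 1 x) := by
  unfold ev tw
  have h : (eval (pt x)).comp (aeval (R := ℂ) (fun i => C (xi q (Wt s i)) * X i : _ → MP n)).toRingHom =
      eval (pt (rot q s 1 x)) := by
    apply MvPolynomial.ringHom_ext
    · intro r; simp
    · intro i
      simp [pt_rot]
  exact congrArg (fun f : MP n →+* ℂ => f P) h

theorem tw_monomial (e : Fin n ⊕ Fin n →₀ ℕ) (a : ℂ) :
    tw q s (monomial e a) = monomial e (xi q (∑ i, (e i : ℤ) * Wt s i) * a) := by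
  unfold tw
  rw [aeval_monomial]
  rw [Finsupp.prod_fintype _ _ (by simp)]
  simp only [mul_pow, Finset.prod_mul_distrib, ← C_pow, xi_pow]
  have h1 : ∏ i, (C (xi q ((e i : ℤ) * Wt s i)) : MP n) = C (xi q (∑ i, (e i : ℤ) * Wt s i)) := by
    rw [← map_prod, xi_prod]
  rw [h1, mul_comm (xi q _) a, ← C_mul_monomial, ← mul_assoc]
  have h2 : (monomial e 1 : MP n) * C (xi q (∑ i, (e i : ℤ) * Wt s i)) =
    monomial e (xi q (∑ i, (e i : ℤ) * Wt s i)) := by
    rw [mul_comm, C_mul_monomial, mul_one]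
  have h3 : (∏ i, (X i : MP n) ^ e i) = monomial e 1 := by
    rw [monomial_eq, C_1, one_mul, Finsupp.prod_fintype _ _ (by simp)]
  rw [h3, mul_assoc, mul_comm (C (xi q _)), h2]
  rfl

theorem coeff_tw (P : MP n) (e : Fin n ⊕ Fin n →₀ ℕ) :
    coeff e (tw q s P) = xi q (∑ i, (e i : ℤ) * Wt s i) * coeff e P := by
  classical
  induction P using MvPolynomial.induction_on' with
  | monomial u a =>
    rw [tw_monomial, coeff_monomial, coeff_monomial]
    by_cases h : u = e
    · subst h; simp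
    · simp [h]
  | add P Q hP hQ =>
    rw [map_add, coeff_add, coeff_add, hP, hQ]; ring

theorem sum_cast (e : Fin n ⊕ Fin n →₀ ℕ) :
    ((∑ i, (e i : ℤ) * Wt s i : ℤ) : ZMod q) = ∑ i, (e i : ZMod q) * wt q s i := by
  push_cast
  simp only [wt_eq]

theorem mem_HM_iff (hq : 0 < q) (k : ℕ) (P : MP n) :
    P ∈ HM (wt q s) k ↔ P ∈ HH0 n k ∧ tw q s P = P := by
  rw [mem_HH0]
  unfold HM
  rw [Submodule.mem_inf, LinearMap.mem_ker, mem_MM_iff]
  constructor
  · rintro ⟨⟨h1, h2⟩, h3⟩
    refine ⟨⟨h1, h3⟩, ?_⟩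
    ext e
    rw [coeff_tw]
    by_cases h : coeff e P = 0
    · rw [h, mul_zero]
    · rw [(xi_eq_one_iff q hq _).mpr (by rw [sum_cast]; exact h2 e h), one_mul]
  · rintro ⟨⟨h1, h3⟩, h2⟩
    refine ⟨⟨h1, fun e he => ?_⟩, h3⟩
    have h4 := congrArg (coeff e) h2
    rw [coeff_tw] at h4
    have h5 : xi q (∑ i, (e i : ℤ) * Wt s i) = 1 := by
      apply mul_right_cancel₀ he
      rw [h4, one_mul]
    rw [← sum_cast]
    exact (xi_eq_one_iff q hq _).mp h5

theorem ev_rot_of_mem (hq : 0 < q) {k : ℕ} {P : MP n} (hP : P ∈ HM (wt q s) k) (m : ℤ) (x : Cn n) :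
    ev P (rot q s m x) = ev P x := by
  have h1 : ∀ y : Cn n, ev P (rot q s 1 y) = ev P y := by
    intro y
    rw [← ev_tw, ((mem_HM_iff q s hq k P).mp hP).2]
  have h2 : ∀ (k : ℕ) (y : Cn n), ev P (rot q s k y) = ev P y := by
    intro k
    induction k with
    | zero => intro y; simp [rot_zero]
    | succ k ih =>
      intro y
      rw [show ((k + 1 : ℕ) : ℤ) = (k : ℤ) + 1 by push_cast; ring, ← rot_rot, ih, h1]
  rcases Int.eq_nat_or_neg m with ⟨k, hk | hk⟩
  · rw [hk, h2]
  · rw [hk]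
    have := h2 k (rot q s (-k) x)
    rw [rot_rot, add_neg_cancel, rot_zero] at this
    exact this.symm

/-- a harmonic invariant polynomial as a function on the lens space -/
noncomputable def Phi (hq : 0 < q) (k : ℕ) : HM (wt q s) k →ₗ[ℂ] (LensSpace q s → ℂ) where
  toFun P := fun a => Quotient.lift (fun x : Sph n => ev P.1 x) (by
    rintro x y ⟨m, h⟩
    show ev P.1 x = ev P.1 y
    rw [h, ev_rot_of_mem q s hq P.2]) a
  map_add' P Q := by
    ext a
    induction a using Quotient.inductionOn with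
    | h x => exact ev_add P.1 Q.1 x
  map_smul' c P := by
    ext a
    induction a using Quotient.inductionOn with
    | h x => exact ev_smul c P.1 x

theorem Phi_proj (hq : 0 < q) (k : ℕ) (P : HM (wt q s) k) (x : Sph n) :
    Phi q s hq k P (proj q s x) = ev P.1 x := rfl

theorem lift_apply {f : LensSpace q s → ℂ} {x : Cn n} (hx : x ≠ 0) :
    lift f x = f (proj q s (normalize x hx)) := by
  simp [lift, hx]

theorem lift_hom0 {f : LensSpace q s → ℂ} (hf : ContDiffOn ℝ ∞ (lift f) {0}ᶜ) : Hom0 (lift f) where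
  smooth := hf
  hom := by
    intro c x hc hx
    have hcx : c • x ≠ 0 := smul_ne_zero hc.ne' hx
    rw [lift_apply q s hx, lift_apply q s hcx]
    congr 2
    apply Subtype.ext
    simp only [normalize]
    rw [norm_smul, Real.norm_of_nonneg hc.le, smul_smul, mul_inv, mul_comm c⁻¹, mul_assoc,
      inv_mul_cancel₀ hc.ne', mul_one]

theorem sph_ne_zero (x : Sph n) : (x : Cn n) ≠ 0 := by
  intro h
  have := x.2
  rw [h] at this
  simp at this

theorem normalize_coe (x : Sph n) : normalize (x : Cn n) (sph_ne_zero x) = x := by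
  apply Subtype.ext
  have h : ‖(x : Cn n)‖ = 1 := by simpa using x.2
  simp [normalize, h]

theorem lift_coe (f : LensSpace q s → ℂ) (x : Sph n) : lift f (x : Cn n) = f (proj q s x) := by
  rw [lift_apply q s (sph_ne_zero x), normalize_coe]

theorem lift_Phi (hq : 0 < q) (k : ℕ) (P : HM (wt q s) k) {x : Cn n} (hx : x ≠ 0) :
    lift (Phi q s hq k P) x = F0 P.1 x := by
  rw [lift_apply q s hx, Phi_proj]
  rfl

theorem Phi_mem (hq : 0 < q) (k : ℕ) (P : HM (wt q s) k) :
    Phi q s hq k P ∈ eigenspace q s (lam n k) := by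
  have hP := (mem_HM_iff q s hq k P.1).mp P.2
  have hP' := mem_HH0.mp hP.1
  refine ⟨?_, ?_⟩
  · apply (F0_hom0 P.1).smooth.congr
    intro x hx
    exact lift_Phi q s hq k P hx
  · intro x
    have h1 : (Δ (lift (Phi q s hq k P))) (x : Cn n) = (Δ (F0 P.1)) (x : Cn n) := by
      apply Filter.EventuallyEq.eq_of_nhds
      apply laplacian_congr_nhds
      filter_upwards [isOpen_compl_singleton.mem_nhds (sph_ne_zero x)] with y hy
      exact lift_Phi q s hq k P hy
    have hx : ‖(x : Cn n)‖ = 1 := by simpa using x.2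
    rw [h1, F0_lap hP'.1 hP'.2 hx, Phi_proj]
    unfold lam F0
    rw [hx]; simp

theorem rot_smul (m : ℤ) (c : ℝ) (x : Cn n) : rot q s m (c • x) = c • rot q s m x := by
  ext j
  simp [rot]
  ring

theorem norm_rot (m : ℤ) (x : Cn n) : ‖rot q s m x‖ = ‖x‖ := by
  rw [EuclideanSpace.norm_eq, EuclideanSpace.norm_eq]
  congr 1
  apply Finset.sum_congr rfl
  intro j _
  simp only [rot]
  rw [norm_mul]
  have h : ‖Complex.exp (2 * Real.pi * Complex.I * ((m * s j : ℤ) : ℂ) / q)‖ = 1 := by
    have e : (2 * Real.pi * Complex.I * ((m * s j : ℤ) : ℂ) / q : ℂ) =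
        ((2 * Real.pi * (m * s j : ℤ) / q : ℝ) : ℂ) * Complex.I := by push_cast; ring
    rw [e, Complex.norm_exp_ofReal_mul_I]
  rw [h, one_mul]

theorem mem_eigenspace (hn : 0 < n) (hq : 0 < q) {f : LensSpace q s → ℂ} {μ : ℂ}
    (hf : f ∈ eigenspace q s μ) (hf0 : f ≠ 0) :
    ∃ k : ℕ, μ = lam n k ∧ f ∈ LinearMap.range (Phi q s hq k) := by
  obtain ⟨h1, h2⟩ := hf
  have hF := lift_hom0 q s h1
  have h3 : ∀ x : Cn n, ‖x‖ = 1 → (Δ (lift f)) x = - μ * lift f x := by
    intro x hx
    have := h2 ⟨x, by simpa using hx⟩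
    rw [← lift_coe q s f ⟨x, by simpa using hx⟩] at this
    exact this
  rcases classify hn hF h3 with h | ⟨k, hk, P, hP, hPF⟩
  · exfalso
    apply hf0
    ext a
    induction a using Quotient.inductionOn with
    | h x =>
      have := h x (sph_ne_zero x)
      rw [lift_coe q s f x] at this
      exact this
  · refine ⟨k, hk, ?_⟩
    have hP' := mem_HH0.mp hP
    have h4 : ∀ x : Sph n, f (proj q s x) = ev P x := by
      intro x
      rw [← lift_coe q s f x, hPF x (sph_ne_zero x)]
      have hx : ‖(x : Cn n)‖ = 1 := by simpa using x.2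
      unfold F0; rw [hx]; simp
    have h5 : ∀ x : Cn n, ev P (rot q s 1 x) = ev P x := by
      have h6 : ∀ x : Cn n, ‖x‖ = 1 → ev P (rot q s 1 x) = ev P x := by
        intro x hx
        have e1 := h4 ⟨x, by simpa using hx⟩
        have e2 := h4 ⟨rot q s 1 x, by simpa [norm_rot] using hx⟩
        have e3 : proj q s ⟨rot q s 1 x, by simpa [norm_rot] using hx⟩ = proj q s ⟨x, by simpa using hx⟩ := by
          symm
          apply Quotient.sound
          exact ⟨1, rfl⟩
        rw [e3, e1] at e2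
        exact e2.symm
      intro x
      by_cases hx : x = 0
      · subst hx
        congr 1
        ext j
        simp [rot]
      · have hx' : ‖x‖ ≠ 0 := norm_ne_zero_iff.mpr hx
        have e1 : x = ‖x‖ • (‖x‖⁻¹ • x) := by rw [smul_smul, mul_inv_cancel₀ hx', one_smul]
        have e2 : ‖‖x‖⁻¹ • x‖ = 1 := by rw [norm_smul, norm_inv, norm_norm, inv_mul_cancel₀ hx']
        rw [e1, rot_smul, ev_smul_real hP'.1, ev_smul_real hP'.1, h6 _ e2]
    have h7 : tw q s P = P := by
      rw [← sub_eq_zero]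
      apply ev_eq_zero
      intro x
      have : ev (tw q s P - P) x = ev (tw q s P) x - ev P x := by simp [ev]
      rw [this, ev_tw, h5, sub_self]
    have h8 : P ∈ HM (wt q s) k := (mem_HM_iff q s hq k P).mpr ⟨hP, h7⟩
    refine ⟨⟨P, h8⟩, ?_⟩
    ext a
    induction a using Quotient.inductionOn with
    | h x => exact (h4 x).symm

theorem Phi_injective (hn : 0 < n) (hq : 0 < q) (k : ℕ) : Function.Injective (Phi q s hq k) := by
  rw [← LinearMap.ker_eq_bot, LinearMap.ker_eq_bot']
  intro P hP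
  have hP' := mem_HH0.mp ((mem_HM_iff q s hq k P.1).mp P.2).1
  have h1 : P.1 = 0 := by
    apply F0_eq_zero hn hP'.1
    intro x hx
    rw [← lift_Phi q s hq k P hx, hP]
    simp [lift]
  exact Subtype.ext h1

theorem eigenspace_eq_range (hn : 0 < n) (hq : 0 < q) (k : ℕ) :
    eigenspace q s (lam n k) = LinearMap.range (Phi q s hq k) := by
  apply le_antisymm
  · intro f hf
    by_cases hf0 : f = 0
    · rw [hf0]; exact Submodule.zero_mem _
    · obtain ⟨j, hj, hj'⟩ := mem_eigenspace q s hn hq hf hf0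
      have := lam_inj hn hj
      subst this
      exact hj'
  · rintro f ⟨P, rfl⟩
    exact Phi_mem q s hq k P

theorem rank_eigenspace (hn : 0 < n) (hq : 0 < q) (k : ℕ) :
    Module.rank ℂ (eigenspace q s (lam n k)) = Module.finrank ℂ (HM (wt q s) k) := by
  rw [eigenspace_eq_range q s hn hq k, Module.finrank_eq_rank]
  exact (LinearEquiv.ofInjective _ (Phi_injective q s hn hq k)).rank_eq.symm

theorem rank_eigenspace_of_ne (hn : 0 < n) (hq : 0 < q) {μ : ℂ} (h : ∀ k, μ ≠ lam n k) :
    Module.rank ℂ (eigenspace q s μ) = 0 := by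
  have : eigenspace q s μ = ⊥ := by
    rw [eq_bot_iff]
    intro f hf
    rw [Submodule.mem_bot]
    by_contra hf0
    obtain ⟨k, hk, _⟩ := mem_eigenspace q s hn hq hf hf0
    exact h k hk
  rw [this]
  simp

theorem isospectral_of_cnt (hn : 0 < n) (hq : 0 < q) (s s' : Fin n → ℤ)
    (h : ∀ k, cnt (wt q s) k = cnt (wt q s') k) : Isospectral q s s' := by
  intro μ
  by_cases hμ : ∃ k, μ = lam n k
  · obtain ⟨k, rfl⟩ := hμ
    rw [rank_eigenspace q s hn hq, rank_eigenspace q s' hn hq]
    congr 1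
    exact finrank_HM_eq hn (fun j => by simp [wt]) (fun j => by simp [wt]) h k
  · push Not at hμ
    rw [rank_eigenspace_of_ne q s hn hq hμ, rank_eigenspace_of_ne q s' hn hq hμ]

end Pool.Agent.H21.LensDefs
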