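import Mathlib
import Pool.Agent.H21.Lens.Spectrum

set_option autoImplicit false

namespace Pool.Agent.H21.LensDefs

open InnerProductGeometry

variable {n : ℕ}

/-- `rot` as a linear isometry -/
noncomputable def rotI (q : ℕ) (s : Fin n → ℤ) (m : ℤ) : Cn n →ₗᵢ[ℝ] Cn n where
  toFun := rot q s m
  map_add' x y := by ext j; simp [rot]; ring
  map_smul' c x := by ext j; simp [rot]; ring
  norm_map' x := norm_rot q s m x

theorem rotI_apply (q : ℕ) (s : Fin n → ℤ) (m : ℤ) (x : Cn n) : rotI q s m x = rot q s m x := rfl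

theorem angle_rot (q : ℕ) (s : Fin n → ℤ) (m : ℤ) (x y : Cn n) :
    angle (rot q s m x) (rot q s m y) = angle x y := (rotI q s m).angle_map x y

theorem proj_eq_iff (q : ℕ) (s : Fin n → ℤ) (x y : Sph n) :
    proj q s x = proj q s y ↔ ∃ m : ℤ, (y : Cn n) = rot q s m x := by
  constructor
  · intro h; exact Quotient.exact h
  · intro h; exact Quotient.sound h

theorem rot_mod (q : ℕ) (hq : 0 < q) (s : Fin n → ℤ) (m m' : ℤ) (h : (q : ℤ) ∣ m - m') (x : Cn n) :
    rot q s m x = rot q s m' x := by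
  obtain ⟨k, hk⟩ := h
  ext j
  simp only [rot]
  congr 1
  have e : m * s j = m' * s j + q * (k * s j) := by
    have : m = m' + q * k := by linarith
    rw [this]; ring
  have h1 := xi_add q (m' * s j) (q * (k * s j))
  have h2 : xi q (q * (k * s j)) = 1 := by
    rw [xi_eq_one_iff q hq]
    push_cast
    simp
  rw [h2, mul_one] at h1
  rw [e]
  exact h1

/-- the `m`-th rotation as a self-map of the sphere -/
noncomputable def rotS (q : ℕ) (s : Fin n → ℤ) (m : ℤ) (x : Sph n) : Sph n :=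
  ⟨rot q s m x, by rw [mem_sphere_zero_iff_norm, norm_rot]; simpa using x.2⟩

theorem proj_rotS (q : ℕ) (s : Fin n → ℤ) (m : ℤ) (x : Sph n) : proj q s (rotS q s m x) = proj q s x := by
  symm
  rw [proj_eq_iff]
  exact ⟨m, rfl⟩

theorem lensDist_le (q : ℕ) (s : Fin n → ℤ) (x y : Sph n) :
    lensDist (proj q s x) (proj q s y) ≤ angle (x : Cn n) y := by
  apply csInf_le
  · exact ⟨0, by rintro d ⟨a, b, _, _, rfl⟩; exact angle_nonneg _ _⟩
  · exact ⟨x, y, rfl, rfl, rfl⟩

theorem lensDist_attained (q : ℕ) (hq : 0 < q) (s : Fin n → ℤ) (x y : Sph n) :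
    ∃ m : ℤ, lensDist (proj q s x) (proj q s y) = angle (x : Cn n) (rot q s m y) := by
  have hset : {d : ℝ | ∃ x' y' : Sph n, proj q s x' = proj q s x ∧ proj q s y' = proj q s y ∧
      d = angle (x' : Cn n) (y' : Cn n)} =
      ((Finset.range q).image (fun m : ℕ => angle (x : Cn n) (rot q s m y)) : Finset ℝ) := by
    ext d
    simp only [Finset.coe_image, Set.mem_image, Finset.coe_range, Set.mem_Iio]
    constructor
    · rintro ⟨x', y', hx, hy, rfl⟩
      obtain ⟨a, ha⟩ := (proj_eq_iff q s x' x).mp hx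
      obtain ⟨b, hb⟩ := (proj_eq_iff q s y' y).mp hy
      refine ⟨((a - b) % q).toNat, ?_, ?_⟩
      · have h1 := Int.emod_lt_of_pos (a - b) (by exact_mod_cast hq : (0 : ℤ) < q)
        have h2 := Int.emod_nonneg (a - b) (by exact_mod_cast hq.ne' : (q : ℤ) ≠ 0)
        omega
      · have h2 := Int.emod_nonneg (a - b) (by exact_mod_cast hq.ne' : (q : ℤ) ≠ 0)
        have h9 : rot q s ((a - b) % q + b) (y' : Cn n) = rot q s a y' := by
          apply rot_mod q hq s
          have : (a - b) % q + b - a = - ((a - b) - (a - b) % q) := by ring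
          rw [this]
          exact (dvd_neg.mpr (Int.dvd_self_sub_emod))
        rw [Int.toNat_of_nonneg h2, hb, rot_rot, ha, h9, angle_rot]
    · rintro ⟨m, _, rfl⟩
      exact ⟨x, rotS q s m y, rfl, proj_rotS q s m y, rfl⟩
  have hne : ((Finset.range q).image (fun m : ℕ => angle (x : Cn n) (rot q s m y))).Nonempty := by
    simp only [Finset.image_nonempty, Finset.nonempty_range_iff]
    exact hq.ne'
  have h1 : lensDist (proj q s x) (proj q s y) ∈
      (((Finset.range q).image (fun m : ℕ => angle (x : Cn n) (rot q s m y)) : Finset ℝ) : Set ℝ) := by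
    unfold lensDist
    rw [hset]
    exact Set.Nonempty.csInf_mem hne (Finset.finite_toSet _)
  simp only [Finset.coe_image, Set.mem_image] at h1
  obtain ⟨m, _, hm⟩ := h1
  exact ⟨m, hm.symm⟩

theorem sph_norm (x : Sph n) : ‖(x : Cn n)‖ = 1 := by simpa using x.2

theorem angle_eq_zero_iff_eq (x y : Sph n) : angle (x : Cn n) y = 0 ↔ x = y := by
  constructor
  · intro h
    rw [angle_eq_zero_iff] at h
    obtain ⟨_, r, hr, hxy⟩ := h
    have h1 : ‖(y : Cn n)‖ = r * ‖(x : Cn n)‖ := by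
      rw [hxy, norm_smul, Real.norm_of_nonneg hr.le]
    rw [sph_norm, sph_norm, mul_one] at h1
    rw [← h1, one_smul] at hxy
    exact Subtype.ext hxy.symm
  · rintro rfl
    exact angle_self (sph_ne_zero x)

/-- orbits are uniformly separated -/
theorem separated (q : ℕ) (hq : 0 < q) (s : Fin n → ℤ) (hs : ∀ j, IsCoprime (s j) (q : ℤ)) :
    ∃ ρ : ℝ, 0 < ρ ∧ ∀ (x : Sph n) (m : ℤ), rot q s m x ≠ x → ρ ≤ angle (x : Cn n) (rot q s m x) := by
  have h1 : ∀ m : ℕ, ∃ ρ : ℝ, 0 < ρ ∧ (¬ (q : ℤ) ∣ m → ∀ x : Sph n, ρ ≤ angle (x : Cn n) (rot q s m x)) := by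
    intro m
    by_cases hm : (q : ℤ) ∣ m
    · exact ⟨1, one_pos, fun h => absurd hm h⟩
    by_cases hne : Nonempty (Sph n)
    · have hcont : Continuous (fun x : Sph n => angle (x : Cn n) (rotI q s m x)) := by
        rw [continuous_iff_continuousAt]
        intro x
        have h2 : rotI q s m x ≠ 0 := by
          intro h
          have := (rotI q s m).norm_map x
          rw [h, norm_zero, sph_norm] at this
          exact zero_ne_one this
        have h3 := continuousAt_angle (x := ((x : Cn n), rotI q s m x)) (sph_ne_zero x) h2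
        have h4 : ContinuousAt (fun x : Sph n => ((x : Cn n), rotI q s m x)) x := by
          apply Continuous.continuousAt
          exact continuous_subtype_val.prodMk ((rotI q s m).continuous.comp continuous_subtype_val)
        exact ContinuousAt.comp (f := fun x : Sph n => ((x : Cn n), rotI q s m x)) h3 h4
      obtain ⟨x0, _, hx0⟩ := isCompact_univ.exists_isMinOn Set.univ_nonempty hcont.continuousOn
      refine ⟨angle (x0 : Cn n) (rotI q s m x0), ?_, fun _ x => hx0 (Set.mem_univ x)⟩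
      apply lt_of_le_of_ne (angle_nonneg _ _)
      intro h
      have h5 : x0 = rotS q s m x0 := (angle_eq_zero_iff_eq _ _).mp h.symm
      -- a non-zero coordinate
      have h6 : ∃ j, (x0 : Cn n) j ≠ 0 := by
        by_contra hc
        push Not at hc
        apply sph_ne_zero x0
        ext j
        exact hc j
      obtain ⟨j, hj⟩ := h6
      have h7 : (x0 : Cn n) j = xi q (m * s j) * (x0 : Cn n) j := by
        conv_lhs => rw [h5]
        simp [rotS, rot, xi]
      have h8 : xi q (m * s j) = 1 := by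
        apply mul_right_cancel₀ hj
        rw [← h7, one_mul]
      rw [xi_eq_one_iff q hq, ZMod.intCast_zmod_eq_zero_iff_dvd] at h8
      exact hm ((hs j).symm.dvd_of_dvd_mul_right h8)
    · exact ⟨1, one_pos, fun _ x => absurd ⟨x⟩ hne⟩
  choose ρ hρ hρ' using h1
  have hne : (Finset.range q).Nonempty := by simpa using hq.ne'
  refine ⟨(Finset.range q).inf' hne ρ, ?_, ?_⟩
  · rw [Finset.lt_inf'_iff]
    intro i _
    exact hρ i
  · intro x m hm
    have h2 := Int.emod_nonneg m (by exact_mod_cast hq.ne' : (q : ℤ) ≠ 0)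
    have h3 := Int.emod_lt_of_pos m (by exact_mod_cast hq : (0 : ℤ) < q)
    have h4 : rot q s m x = rot q s ((m % q).toNat : ℤ) x := by
      apply rot_mod q hq
      rw [Int.toNat_of_nonneg h2]
      exact Int.dvd_self_sub_emod
    have h5 : (m % q).toNat ∈ Finset.range q := by
      rw [Finset.mem_range]; omega
    have h6 : ¬ (q : ℤ) ∣ ((m % q).toNat : ℤ) := by
      intro h
      apply hm
      rw [h4, rot_mod q hq s _ 0 (by simpa using h), rot_zero]
    calc (Finset.range q).inf' hne ρ ≤ ρ ((m % q).toNat) := Finset.inf'_le _ h5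
      _ ≤ angle (x : Cn n) (rot q s ((m % q).toNat : ℤ) x) := hρ' _ h6 x
      _ = _ := by rw [h4]

/-- caps span -/
theorem cap_span (x0 : Sph n) {r : ℝ} (hr : 0 < r) :
    Submodule.span ℝ {x : Cn n | ‖x‖ = 1 ∧ angle x (x0 : Cn n) < r} = ⊤ := by
  rw [eq_top_iff]
  intro v _
  set W := Submodule.span ℝ {x : Cn n | ‖x‖ = 1 ∧ angle x (x0 : Cn n) < r} with hW
  have key : ∀ y : Cn n, y ≠ 0 → angle y (x0 : Cn n) < r → y ∈ W := by
    intro y hy hy'
    have hn' : 0 < ‖y‖ := norm_pos_iff.mpr hy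
    have h1 : ‖y‖⁻¹ • y ∈ W := by
      apply Submodule.subset_span
      refine ⟨by rw [norm_smul, norm_inv, norm_norm, inv_mul_cancel₀ hn'.ne'], ?_⟩
      rwa [angle_smul_left_of_pos _ _ (inv_pos.mpr hn')]
    have h2 := W.smul_mem ‖y‖ h1
    rwa [smul_smul, mul_inv_cancel₀ hn'.ne', one_smul] at h2
  have h0 : (x0 : Cn n) ∈ W := key _ (sph_ne_zero x0) (by rw [angle_self (sph_ne_zero x0)]; exact hr)
  have hc : ContinuousAt (fun t : ℝ => angle ((x0 : Cn n) + t • v) (x0 : Cn n)) 0 := by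
    have h3 := continuousAt_angle (x := ((x0 : Cn n) + (0 : ℝ) • v, (x0 : Cn n)))
      (by simpa using sph_ne_zero x0) (sph_ne_zero x0)
    exact ContinuousAt.comp (f := fun t : ℝ => ((x0 : Cn n) + t • v, (x0 : Cn n))) h3
      (by fun_prop)
  have h4 : ∀ᶠ t in nhds (0 : ℝ), angle ((x0 : Cn n) + t • v) (x0 : Cn n) < r := by
    apply hc.eventually_lt_const
    simpa [angle_self (sph_ne_zero x0)] using hr
  have h5 : ∀ᶠ t in nhds (0 : ℝ), (x0 : Cn n) + t • v ≠ 0 := by
    have : ContinuousAt (fun t : ℝ => (x0 : Cn n) + t • v) 0 := by fun_prop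
    apply this.eventually_ne
    simpa using sph_ne_zero x0
  obtain ⟨t, ⟨ht1, ht2⟩, ht⟩ := ((h4.and h5).filter_mono nhdsWithin_le_nhds |>.and
    (self_mem_nhdsWithin : {0}ᶜ ∈ nhdsWithin (0 : ℝ) {0}ᶜ)).exists
  have h6 := key _ ht2 ht1
  have h7 : t • v ∈ W := by
    have := W.sub_mem h6 h0
    simpa using this
  have h8 := W.smul_mem t⁻¹ h7
  rwa [smul_smul, inv_mul_cancel₀ (by simpa using ht), one_smul] at h8


/-- A map defined on a spanning set of unit vectors and preserving angles extends to a linear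
isometry. -/
theorem extend_isometry (C : Set (Cn n)) (hC : Submodule.span ℝ C = ⊤) (hC1 : ∀ x ∈ C, ‖x‖ = 1)
    (F : Cn n → Cn n) (hF1 : ∀ x ∈ C, ‖F x‖ = 1)
    (hF : ∀ x ∈ C, ∀ y ∈ C, angle (F x) (F y) = angle x y) :
    ∃ T : Cn n →ₗᵢ[ℝ] Cn n, ∀ x ∈ C, T x = F x := by
  have hin : ∀ x ∈ C, ∀ y ∈ C, inner ℝ (F x) (F y) = inner ℝ x y := by
    intro x hx y hy
    rw [← cos_angle_mul_norm_mul_norm (F x) (F y), ← cos_angle_mul_norm_mul_norm x y,
      hF x hx y hy, hF1 x hx, hF1 y hy, hC1 x hx, hC1 y hy]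
  let b := Module.Basis.ofSpan (K := ℝ) (s := C) (by rw [hC])
  have hb : ∀ i, b i ∈ C := fun i => Module.Basis.ofSpan_subset (K := ℝ) (s := C) (by rw [hC]) ⟨i, rfl⟩
  let T : Cn n →ₗ[ℝ] Cn n := b.constr ℝ (fun i => F (b i))
  have hTb : ∀ i, T (b i) = F (b i) := fun i => b.constr_basis ℝ _ i
  have hTin : ∀ x y, inner ℝ (T x) (T y) = inner ℝ x y := by
    have h1 : (innerₗ (Cn n)).compl₁₂ T T = innerₗ (Cn n) := by
      apply LinearMap.ext_basis b b
      intro i j
      simp only [LinearMap.compl₁₂_apply, innerₗ_apply_apply]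
      rw [hTb, hTb]
      exact hin _ (hb i) _ (hb j)
    intro x y
    have h2 := congrArg (fun B : Cn n →ₗ[ℝ] Cn n →ₗ[ℝ] ℝ => B x y) h1
    simpa using h2
  have hTn : ∀ x, ‖T x‖ = ‖x‖ := by
    intro x
    have h1 := hTin x x
    rw [real_inner_self_eq_norm_sq, real_inner_self_eq_norm_sq] at h1
    exact (sq_eq_sq₀ (norm_nonneg _) (norm_nonneg _)).mp h1
  let TI : Cn n →ₗᵢ[ℝ] Cn n := ⟨T, hTn⟩
  refine ⟨TI, fun x hx => ?_⟩
  -- surjectivity of T
  have hsurj : Function.Surjective T := by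
    apply LinearMap.injective_iff_surjective.mp
    exact TI.injective
  have h3 : ∀ z, inner ℝ (F x - T x) (T z) = 0 := by
    have h4 : ((innerₗ (Cn n)) (F x - T x)).comp T = 0 := by
      apply b.ext
      intro i
      simp only [LinearMap.comp_apply, innerₗ_apply_apply, LinearMap.zero_apply]
      rw [inner_sub_left, hTin, hTb, hin x hx _ (hb i), sub_self]
    intro z
    exact congrArg (fun B : Cn n →ₗ[ℝ] ℝ => B z) h4
  obtain ⟨z, hz⟩ := hsurj (F x - T x)
  have h5 := h3 z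
  rw [hz, inner_self_eq_zero] at h5
  exact (sub_eq_zero.mp h5).symm

/-- image of a point of the sphere under a linear isometry -/
noncomputable def isoS (T : Cn n →ₗᵢ[ℝ] Cn n) (x : Sph n) : Sph n :=
  ⟨T x, by rw [mem_sphere_zero_iff_norm, T.norm_map]; simpa using x.2⟩

theorem isoS_coe (T : Cn n →ₗᵢ[ℝ] Cn n) (x : Sph n) : (isoS T x : Cn n) = T x := rfl

/-- distances between nearby points downstairs are angles upstairs -/
theorem near_dist {q : ℕ} (hq : 0 < q) (s : Fin n → ℤ) {ρ r : ℝ}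
    (h : ∀ (x : Sph n) (m : ℤ), rot q s m x ≠ x → ρ ≤ angle (x : Cn n) (rot q s m x))
    (hr : 4 * r ≤ ρ) {z x y : Sph n} (hx : angle (x : Cn n) z < r) (hy : angle (y : Cn n) z < r) :
    lensDist (proj q s x) (proj q s y) = angle (x : Cn n) y := by
  obtain ⟨m, hm⟩ := lensDist_attained q hq s x y
  have hle := lensDist_le q s x y
  by_cases hmy : rot q s m y = (y : Cn n)
  · rw [hm, hmy]
  · exfalso
    have h3 := h y m hmy
    have h4 := angle_le_angle_add_angle (y : Cn n) (x : Cn n) (rot q s m y)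
    have h5 := angle_le_angle_add_angle (x : Cn n) (z : Cn n) (y : Cn n)
    rw [angle_comm (z : Cn n) (y : Cn n)] at h5
    rw [angle_comm (y : Cn n) (x : Cn n)] at h4
    rw [hm] at hle
    linarith

theorem lift_exists {q : ℕ} (hq : 0 < q) {s s' : Fin n → ℤ}
    {f : LensSpace q s → LensSpace q s'} (hf : ∀ a b, lensDist (f a) (f b) = lensDist a b)
    {r : ℝ} {x0 y0 : Sph n} (hy0 : proj q s' y0 = f (proj q s x0)) (x : Sph n)
    (hx : angle (x : Cn n) x0 < r) : ∃ y : Sph n, proj q s' y = f (proj q s x) ∧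
      angle (y : Cn n) y0 < r := by
  obtain ⟨y, hy⟩ : ∃ y, proj q s' y = f (proj q s x) := Quotient.exists_rep _
  obtain ⟨m, hm⟩ := lensDist_attained q hq s' y0 y
  refine ⟨rotS q s' m y, by rw [proj_rotS, hy], ?_⟩
  rw [angle_comm]
  show angle (y0 : Cn n) (rot q s' m y) < r
  rw [← hm, hy0, hy, hf]
  have := lensDist_le q s x0 x
  rw [angle_comm] at this
  linarith

/-- the point of the sphere given by a vector of norm `1` -/
def mkS (x : Cn n) (hx : ‖x‖ = 1) : Sph n := ⟨x, by rw [mem_sphere_zero_iff_norm]; exact hx⟩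

theorem mkS_coe (x : Sph n) (hx : ‖(x : Cn n)‖ = 1) : mkS (x : Cn n) hx = x := rfl

open Classical in
/-- extension of a self-map of the sphere by zero -/
noncomputable def extS (F : Sph n → Sph n) (x : Cn n) : Cn n :=
  if hx : ‖x‖ = 1 then (F (mkS x hx) : Cn n) else 0

theorem extS_apply (F : Sph n → Sph n) (x : Cn n) (hx : ‖x‖ = 1) : extS F x = F (mkS x hx) := by
  simp [extS, hx]

/-- Local lifts of an isometry of lens spaces are restrictions of linear isometries. -/
theorem local_lift {q : ℕ} (hq : 0 < q) {s s' : Fin n → ℤ} {ρ ρ' : ℝ}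
    (h1 : ∀ (x : Sph n) (m : ℤ), rot q s m x ≠ x → ρ ≤ angle (x : Cn n) (rot q s m x))
    (h2 : ∀ (x : Sph n) (m : ℤ), rot q s' m x ≠ x → ρ' ≤ angle (x : Cn n) (rot q s' m x))
    {f : LensSpace q s → LensSpace q s'} (hf : ∀ a b, lensDist (f a) (f b) = lensDist a b)
    {r : ℝ} (hr : 0 < r) (hr1 : 4 * r ≤ ρ) (hr2 : 4 * r ≤ ρ') (x0 : Sph n) :
    ∃ T : Cn n →ₗᵢ[ℝ] Cn n, ∀ x : Sph n, angle (x : Cn n) x0 < r →
      f (proj q s x) = proj q s' (isoS T x) := by
  obtain ⟨y0, hy0⟩ : ∃ y0, proj q s' y0 = f (proj q s x0) := Quotient.exists_rep _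
  have ex := lift_exists hq hf (r := r) hy0
  choose! F hF1 hF2 using ex
  clear hy0
  have hC1 : ∀ x ∈ {x : Cn n | ‖x‖ = 1 ∧ angle x (x0 : Cn n) < r}, ‖x‖ = 1 := fun x hx => hx.1
  have hFn : ∀ x ∈ {x : Cn n | ‖x‖ = 1 ∧ angle x (x0 : Cn n) < r}, ‖extS F x‖ = 1 := by
    intro x hx
    rw [extS_apply F x hx.1]
    exact sph_norm _
  have hFa : ∀ x ∈ {x : Cn n | ‖x‖ = 1 ∧ angle x (x0 : Cn n) < r},
      ∀ y ∈ {x : Cn n | ‖x‖ = 1 ∧ angle x (x0 : Cn n) < r},
      angle (extS F x) (extS F y) = angle x y := by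
    intro x hx y hy
    rw [extS_apply F x hx.1, extS_apply F y hy.1]
    have e1 := near_dist hq s h1 hr1 (z := x0) (x := mkS x hx.1) (y := mkS y hy.1) hx.2 hy.2
    have e2 := near_dist hq s' h2 hr2 (z := y0) (x := F (mkS x hx.1)) (y := F (mkS y hy.1))
      (hF2 (mkS x hx.1) hx.2) (hF2 (mkS y hy.1) hy.2)
    rw [← e2, hF1 (mkS x hx.1) hx.2, hF1 (mkS y hy.1) hy.2, hf, e1]
    rfl
  have hspan := cap_span x0 hr
  have hex := extend_isometry {x : Cn n | ‖x‖ = 1 ∧ angle x (x0 : Cn n) < r} hspan hC1 (extS F) hFn hFa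
  obtain ⟨T, hT⟩ := hex
  refine ⟨T, fun x hx => ?_⟩
  rw [← hF1 x hx]
  congr 1
  apply Subtype.ext
  rw [isoS_coe, hT x ⟨sph_norm x, hx⟩, extS_apply F x (sph_norm x), mkS_coe]

/-- Two linear isometries whose values lie in the same orbits on a cap differ by an element of the
group. -/
theorem orbit_rigid {q : ℕ} {s' : Fin n → ℤ} {ρ' : ℝ} (hρ' : 0 < ρ')
    (h2 : ∀ (x : Sph n) (m : ℤ), rot q s' m x ≠ x → ρ' ≤ angle (x : Cn n) (rot q s' m x))
    (T T' : Cn n →ₗᵢ[ℝ] Cn n) (x0 : Sph n) {r : ℝ} (hr : 0 < r)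
    (h : ∀ x : Sph n, angle (x : Cn n) x0 < r → proj q s' (isoS T x) = proj q s' (isoS T' x)) :
    ∃ m : ℤ, ∀ x : Cn n, T' x = rot q s' m (T x) := by
  have h0 := h x0 (by rw [angle_self (sph_ne_zero x0)]; exact hr)
  obtain ⟨m0, hm0⟩ := (proj_eq_iff q s' _ _).mp h0
  refine ⟨m0, ?_⟩
  have hmin : 0 < min r (ρ' / 2) := lt_min hr (by linarith)
  have hcap : ∀ x : Sph n, angle (x : Cn n) x0 < min r (ρ' / 2) → T' x = rot q s' m0 (T x) := by
    intro x hx
    have hx1 : angle (x : Cn n) x0 < r := lt_of_lt_of_le hx (min_le_left _ _)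
    have hx2 : angle (x : Cn n) x0 < ρ' / 2 := lt_of_lt_of_le hx (min_le_right _ _)
    obtain ⟨m, hm⟩ := (proj_eq_iff q s' _ _).mp (h x hx1)
    simp only [isoS_coe] at hm hm0
    by_contra hne
    -- the two points of the same orbit
    have e1 : rot q s' (m - m0) (rot q s' m0 (T x)) = T' x := by
      rw [rot_rot, sub_add_cancel, hm]
    have hy : ‖rot q s' m0 (T x)‖ = 1 := by rw [norm_rot, T.norm_map, sph_norm]
    have e2 := h2 ⟨rot q s' m0 (T x), by simpa using hy⟩ (m - m0) (by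
      show rot q s' (m - m0) (rot q s' m0 (T x)) ≠ rot q s' m0 (T x)
      rw [e1]; exact hne)
    have e3 : ρ' ≤ angle (rot q s' m0 (T x)) (T' x) := by rw [← e1]; exact e2
    have e4 := angle_le_angle_add_angle (rot q s' m0 (T x)) (T' x0) (T' x)
    have e5 : angle (rot q s' m0 (T x)) (T' x0) = angle (x : Cn n) x0 := by
      rw [hm0, angle_rot, T.angle_map]
    have e6 : angle (T' x0) (T' x) = angle (x : Cn n) x0 := by
      rw [T'.angle_map, angle_comm]
    linarith
  have hlin : T'.toLinearMap = (rotI q s' m0).toLinearMap.comp T.toLinearMap := by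
    apply LinearMap.ext_on (cap_span x0 hmin)
    rintro x ⟨hx1, hx2⟩
    exact hcap ⟨x, by simpa using hx1⟩ hx2
  intro x
  exact congrArg (fun L : Cn n →ₗ[ℝ] Cn n => L x) hlin

/-- An isometry of lens spaces is induced by a linear isometry conjugating the generator into the
other group. -/
theorem global_lift (hn : 1 ≤ n) {q : ℕ} (hq : 0 < q) {s s' : Fin n → ℤ}
    (hs : ∀ j, IsCoprime (s j) (q : ℤ)) (hs' : ∀ j, IsCoprime (s' j) (q : ℤ))
    (h : Isometric q s s') :
    ∃ (T : Cn n →ₗᵢ[ℝ] Cn n) (m : ℤ), ∀ x : Cn n, T (rot q s 1 x) = rot q s' m (T x) := by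
  obtain ⟨f, hf⟩ := h
  obtain ⟨ρ, hρ, h1⟩ := separated q hq s hs
  obtain ⟨ρ', hρ', h2⟩ := separated q hq s' hs'
  set r := min ρ ρ' / 4 with hr
  have hr0 : 0 < r := by have := lt_min hρ hρ'; positivity
  have hr1 : 4 * r ≤ ρ := by rw [hr]; linarith [min_le_left ρ ρ']
  have hr2 : 4 * r ≤ ρ' := by rw [hr]; linarith [min_le_right ρ ρ']
  have loc := fun x0 : Sph n => local_lift hq h1 h2 hf hr0 hr1 hr2 x0
  -- a base point
  have hrank : 1 < Module.rank ℝ (Cn n) := by
    have e1 : Module.finrank ℝ (Cn n) = 2 * n := by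
      rw [← Module.finrank_mul_finrank ℝ ℂ (Cn n)]
      simp
    rw [← Module.finrank_eq_rank, e1]
    exact_mod_cast (by omega : 1 < 2 * n)
  have hconn := isConnected_sphere hrank (0 : Cn n) (r := 1) zero_le_one
  have : ConnectedSpace (Sph n) := Subtype.connectedSpace hconn
  obtain ⟨x00⟩ : Nonempty (Sph n) := inferInstance
  obtain ⟨T, hT⟩ := loc x00
  let Z : Set (Sph n) := {x | ∃ ε > 0, ∀ z : Sph n, angle (z : Cn n) x < ε →
    f (proj q s z) = proj q s' (isoS T z)}
  have hcapopen : ∀ (x : Sph n) (ε : ℝ), 0 < ε → {z : Sph n | angle (z : Cn n) x < ε} ∈ nhds x := by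
    intro x ε hε
    have h3 := continuousAt_angle (x := ((x : Cn n), (x : Cn n))) (sph_ne_zero x) (sph_ne_zero x)
    have h4 : ContinuousAt (fun z : Sph n => angle (z : Cn n) x) x :=
      ContinuousAt.comp (f := fun z : Sph n => ((z : Cn n), (x : Cn n))) h3 (by fun_prop)
    exact h4.eventually_lt_const (by simpa [angle_self (sph_ne_zero x)] using hε)
  have hZopen : IsOpen Z := by
    rw [isOpen_iff_mem_nhds]
    rintro x ⟨ε, hε, hx⟩
    filter_upwards [hcapopen x (ε / 2) (by linarith)] with y hy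
    refine ⟨ε / 2, by linarith, fun z hz => hx z ?_⟩
    have := angle_le_angle_add_angle (z : Cn n) (y : Cn n) (x : Cn n)
    have hy' : angle (y : Cn n) x < ε / 2 := hy
    linarith
  have hZclosed : IsClosed Z := by
    rw [← isOpen_compl_iff, isOpen_iff_mem_nhds]
    intro x hx
    filter_upwards [hcapopen x r hr0] with y hy hyZ
    apply hx
    obtain ⟨ε, hε, hyε⟩ := hyZ
    have hy' : angle (y : Cn n) x < r := hy
    obtain ⟨Tx, hTx⟩ := loc x
    obtain ⟨m, hm⟩ := orbit_rigid hρ' h2 Tx T y (r := min ε (r - angle (y : Cn n) x))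
      (lt_min hε (by linarith)) (by
        intro z hz
        have hz1 : angle (z : Cn n) y < ε := lt_of_lt_of_le hz (min_le_left _ _)
        have hz2 : angle (z : Cn n) y < r - angle (y : Cn n) x := lt_of_lt_of_le hz (min_le_right _ _)
        have := angle_le_angle_add_angle (z : Cn n) (y : Cn n) (x : Cn n)
        rw [← hyε z hz1, ← hTx z (by linarith)])
    refine ⟨r, hr0, fun z hz => ?_⟩
    rw [hTx z hz]
    rw [proj_eq_iff]
    exact ⟨m, hm z⟩
  have hZ : Z = Set.univ := by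
    rcases isClopen_iff.mp ⟨hZclosed, hZopen⟩ with h3 | h3
    · exfalso
      have : x00 ∈ Z := ⟨r, hr0, hT⟩
      rw [h3] at this
      exact this
    · exact h3
  have hall : ∀ x : Sph n, f (proj q s x) = proj q s' (isoS T x) := by
    intro x
    have hx : x ∈ Z := by rw [hZ]; trivial
    obtain ⟨ε, hε, hx'⟩ := hx
    exact hx' x (by rw [angle_self (sph_ne_zero x)]; exact hε)
  -- conjugation
  obtain ⟨m, hm⟩ := orbit_rigid hρ' h2 T (T.comp (rotI q s 1)) x00 one_pos (by
    intro x _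
    have e1 : isoS (T.comp (rotI q s 1)) x = isoS T (rotS q s 1 x) := rfl
    rw [e1, ← hall, ← hall, proj_rotS])
  exact ⟨T, m, hm⟩

end Pool.Agent.H21.LensDefs
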