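import Mathlib
import Pool.Agent.H21.Lens.Isom

set_option autoImplicit false

namespace Pool.Agent.H21.LensDefs

variable {n : ℕ}

/-- vectors supported on the coordinates satisfying `P` -/
def KP (P : Fin n → Prop) : Submodule ℝ (Cn n) where
  carrier := {x | ∀ j, ¬ P j → x j = 0}
  zero_mem' := by intro j _; rfl
  add_mem' := by
    intro x y hx hy j hj
    simp [hx j hj, hy j hj]
  smul_mem' := by
    intro c x hx j hj
    simp [hx j hj]

/-- coordinates -/
noncomputable def KPequiv (P : Fin n → Prop) [DecidablePred P] : KP P ≃ₗ[ℝ] ({j // P j} → ℂ) where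
  toFun x := fun j => x.1 j.1
  map_add' x y := by ext j; simp
  map_smul' c x := by ext j; simp
  invFun y := ⟨WithLp.toLp 2 (fun j => if h : P j then y ⟨j, h⟩ else 0), by
    intro j hj; simp [hj]⟩
  left_inv x := by
    apply Subtype.ext
    ext j
    by_cases h : P j
    · simp [h]
    · simp [h, x.2 j h]
  right_inv y := by
    ext j
    simp [j.2]

theorem finrank_KP (P : Fin n → Prop) [DecidablePred P] :
    Module.finrank ℝ (KP P) = 2 * (Finset.univ.filter P).card := by
  rw [(KPequiv P).finrank_eq, Module.finrank_pi_fintype]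
  simp [Fintype.card_subtype, mul_comm]

/-- `2 cos (2π a / q)` -/
noncomputable def cr (q : ℕ) (a : ℤ) : ℝ := (xi q a + xi q (-a)).re

theorem cr_eq (q : ℕ) (a : ℤ) : ((cr q a : ℝ) : ℂ) = xi q a + xi q (-a) := by
  have h : (starRingEnd ℂ) (xi q a + xi q (-a)) = xi q a + xi q (-a) := by
    rw [map_add, xi_conj, xi_conj, neg_neg, add_comm]
  unfold cr
  exact (Complex.conj_eq_iff_re.mp h)

theorem xi_ne_zero (q : ℕ) (a : ℤ) : xi q a ≠ 0 := Complex.exp_ne_zero _

theorem xi_neg (q : ℕ) (a : ℤ) : xi q a * xi q (-a) = 1 := by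
  rw [← xi_add, add_neg_cancel, xi_zero]

theorem cr_eq_iff (q : ℕ) (hq : 0 < q) (a b : ℤ) :
    cr q a = cr q b ↔ ((a : ZMod q) = b ∨ (a : ZMod q) = - b) := by
  have h1 : cr q a = cr q b ↔ xi q a + xi q (-a) = xi q b + xi q (-b) := by
    rw [← cr_eq, ← cr_eq, Complex.ofReal_inj]
  have h2 : xi q a + xi q (-a) = xi q b + xi q (-b) ↔ (xi q a - xi q b) * (xi q a * xi q b - 1) = 0 := by
    have ha := xi_neg q a
    have hb := xi_neg q b
    constructor
    · intro h
      linear_combination (xi q a * xi q b) * h - xi q b * ha + xi q a * hb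
    · intro h
      have h3 : xi q a * xi q b * ((xi q a + xi q (-a)) - (xi q b + xi q (-b))) = 0 := by
        linear_combination h + xi q b * ha - xi q a * hb
      rcases mul_eq_zero.mp h3 with h4 | h4
      · exact absurd h4 (mul_ne_zero (xi_ne_zero q a) (xi_ne_zero q b))
      · exact sub_eq_zero.mp h4
  have h3 : xi q a - xi q b = 0 ↔ (a : ZMod q) = b := by
    have h4 : xi q a - xi q b = 0 ↔ xi q (a - b) = 1 := by
      have h5 : xi q (a - b) * xi q b = xi q a := by rw [← xi_add, sub_add_cancel]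
      constructor
      · intro h
        apply mul_right_cancel₀ (xi_ne_zero q b)
        rw [h5, one_mul]
        exact sub_eq_zero.mp h
      · intro h
        rw [← h5, h, one_mul, sub_self]
    rw [h4, xi_eq_one_iff q hq]
    push_cast
    exact sub_eq_zero
  have h4 : xi q a * xi q b - 1 = 0 ↔ (a : ZMod q) = - b := by
    rw [sub_eq_zero, ← xi_add, xi_eq_one_iff q hq]
    push_cast
    exact add_eq_zero_iff_eq_neg
  rw [h1, h2, mul_eq_zero, h3, h4]

theorem mem_KP_iff (q : ℕ) (hq : 0 < q) (w : Fin n → ℤ) (m a : ℤ) (x : Cn n) :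
    x ∈ KP (fun j => ((m * w j : ℤ) : ZMod q) = a ∨ ((m * w j : ℤ) : ZMod q) = - a) ↔
      rot q w m x + rot q w (-m) x = cr q a • x := by
  have h1 : ∀ j, (rot q w m x + rot q w (-m) x) j = (cr q (m * w j) : ℂ) * x j := by
    intro j
    rw [cr_eq]
    simp [rot, xi]
    ring
  constructor
  · intro h
    ext j
    rw [h1]
    simp only [PiLp.smul_apply, Complex.real_smul]
    by_cases hj : ((m * w j : ℤ) : ZMod q) = a ∨ ((m * w j : ℤ) : ZMod q) = - a
    · rw [(cr_eq_iff q hq (m * w j) a).mpr hj]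
    · rw [h j hj]; simp
  · intro h j hj
    have h2 := h1 j
    rw [h] at h2
    simp only [PiLp.smul_apply, Complex.real_smul] at h2
    by_contra hx
    apply hj
    rw [← cr_eq_iff q hq]
    have h3 := mul_right_cancel₀ hx h2
    exact (Complex.ofReal_injective h3).symm

theorem card_le_of_isometric (hn : 1 ≤ n) {q : ℕ} (hq : 0 < q) {s s' : Fin n → ℤ}
    (hs : ∀ j, IsCoprime (s j) (q : ℤ)) (hs' : ∀ j, IsCoprime (s' j) (q : ℤ))
    (h : Isometric q s s') : ∃ m : ZMod q, ∀ a : ℤ,
    (Finset.univ.filter (fun j => (s j : ZMod q) = a ∨ (s j : ZMod q) = - a)).card ≤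
    (Finset.univ.filter (fun j => m * (s' j : ZMod q) = a ∨ m * (s' j : ZMod q) = - a)).card := by
  classical
  obtain ⟨T, m, hT⟩ := global_lift hn hq hs hs' h
  have hT' : ∀ x, T (rot q s (-1) x) = rot q s' (-m) (T x) := by
    intro x
    have h1 := hT (rot q s (-1) x)
    rw [rot_rot, add_neg_cancel, rot_zero] at h1
    rw [h1, rot_rot, neg_add_cancel, rot_zero]
  refine ⟨(m : ZMod q), fun a => ?_⟩
  have hmap : ∀ x : Cn n, x ∈ KP (fun j => ((1 * s j : ℤ) : ZMod q) = a ∨ ((1 * s j : ℤ) : ZMod q) = - a) →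
      T x ∈ KP (fun j => ((m * s' j : ℤ) : ZMod q) = a ∨ ((m * s' j : ℤ) : ZMod q) = - a) := by
    intro x hx
    rw [mem_KP_iff q hq] at hx ⊢
    rw [← hT, ← hT', ← map_add, hx, map_smul]
  let L : KP (fun j => ((1 * s j : ℤ) : ZMod q) = a ∨ ((1 * s j : ℤ) : ZMod q) = - a) →ₗ[ℝ]
      KP (fun j => ((m * s' j : ℤ) : ZMod q) = a ∨ ((m * s' j : ℤ) : ZMod q) = - a) :=
    T.toLinearMap.restrict hmap
  have hL : Function.Injective L := by
    intro x y hxy
    apply Subtype.ext
    apply T.injective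
    exact congrArg Subtype.val hxy
  have h1 := LinearMap.finrank_le_finrank_of_injective hL
  rw [finrank_KP, finrank_KP] at h1
  have h2 := Nat.le_of_mul_le_mul_left h1 (by norm_num)
  simpa using h2

end Pool.Agent.H21.LensDefs
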